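import Pool.Agent.LPG.KL
import Pool.Agent.LPG.Step2

/-!
# Zero-cost steps: definitions (MP_c76e9d_co; helper85)

Paper proof: /team-store/LPG_zstep.md.  `(N, K)` polytope of rank `n`, `s ∈ N`.
`Jn s v x`: `x` lies in the smallest face `s ∨ v` which contains `s` and `v`.
`Dec`: decreasing arcs, `s ∨ x ⊆ s ∨ v`.  `Cl K O x`: `x` is a coloop of `O` modulo `K`.
`KZ s τ`: the vertices `w ≠ s` with `τ ∉ s ∨ w`; these are the vertices of the projection from the point
`s - η τ`, `η > 0` small.  `NR s u`: the vertices of that projection if `u` is a neighbour of `s`: `KZ s u` and `u`.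
`Zone U`: in `U` one can use Menger: `U` is closed under decreasing arcs, and the neighbours in `U` of any `y ∈ U`
which is no neighbour of `s` span, with `s` and `y`, at least a hyperplane.
`ZGood`: the routing used in the step: all elements of `X` move (some stay), `t` moves to the neighbour `u` of `s`, all
vertices used, except the final places, are no vertices of the projection, and coloops are kept.
-/

set_option autoImplicit false

namespace Pool.Agent.LPG

variable {W : Type*} [AddCommGroup W] [Module ℝ W]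

/-- `x` lies in the smallest face which contains `s` and `v`. -/
def Jn (N : Finset W) (K : Submodule ℝ W) (s v x : W) : Prop :=
  ∀ f : W →ₗ[ℝ] ℝ, (∀ z ∈ K, f z = 0) → (∀ y ∈ N, 0 ≤ f y) → f s = 0 → f v = 0 → f x = 0

/-- Decreasing arcs: edges `v x` not through `s` with `s ∨ x ⊆ s ∨ v`. -/
def Dec (N : Finset W) (K : Submodule ℝ W) (s v x : W) : Prop :=
  Adj N K v x ∧ v ≠ s ∧ x ≠ s ∧ Jn N K s v x

/-- `x` is a coloop of `O` modulo `K`: it is not in the span of the others. -/
def Cl (K : Submodule ℝ W) (O : Set W) (x : W) : Prop :=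
  x ∉ K ⊔ Submodule.span ℝ (O \ {x})

/-- The vertices `w ≠ s` such that `τ` is not in the face `s ∨ w`. -/
def KZ (N : Finset W) (K : Submodule ℝ W) (s τ : W) : Set W :=
  {w | w ∈ N ∧ w ≠ s ∧ ¬ Jn N K s w τ}

open Classical in
/-- The vertices of the projection from `s - η u`, `u` a neighbour of `s`. -/
noncomputable def NR (N : Finset W) (K : Submodule ℝ W) (s u : W) : Finset W :=
  N.filter (fun w => w ≠ s ∧ (w = u ∨ ¬ Jn N K s w u))

/-- Sets of vertices in which the routing takes place. -/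
structure Zone (N : Finset W) (K : Submodule ℝ W) (s : W) (U : Set W) : Prop where
  sub : ∀ v ∈ U, v ∈ N ∧ v ≠ s
  dec : ∀ v ∈ U, ∀ x, Dec N K s v x → x ∈ U
  span : ∀ y ∈ U, y ∉ nb N K s → ∀ Λ : Submodule ℝ W, K ≤ Λ → s ∈ Λ → y ∈ Λ →
    (∀ w ∈ U, Adj N K y w → w ∈ Λ) → ∃ z : W, ∀ v ∈ N, v ∈ Λ ⊔ Submodule.span ℝ {z}

/-- The routing of the zero-cost step with centre `s`: `t` goes to the neighbour `u` of `s`. -/
structure ZGood (N : Finset W) (K : Submodule ℝ W) (s : W) (X : Finset W) (t u : W)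
    (S : W → Finset W) (e : W → W) : Prop where
  adj : Adj N K s u
  et : e t = u
  disj : ∀ x ∈ X, ∀ y ∈ X, x ≠ y → Disjoint (S x) (S y)
  mem : ∀ x ∈ X, x ∈ S x ∧ e x ∈ S x
  sub : ∀ x ∈ X, ∀ v ∈ S x, v ∈ N ∧ v ≠ s
  conn : ∀ x ∈ X, ∀ v ∈ S x,
    Relation.ReflTransGen (fun p q => Adj N K p q ∧ p ∈ S x ∧ q ∈ S x) x v
  inner : ∀ x ∈ X, ∀ v ∈ S x, v ≠ e x → v ≠ u ∧ Jn N K s v u
  out : ∀ x ∈ X, x ≠ t → e x ≠ u ∧ ¬ Jn N K s (e x) u
  cl : ∀ x ∈ X, Cl K (insert s (X : Set W)) x → Cl K (insert s (e '' (X : Set W))) (e x)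

end Pool.Agent.LPG
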