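import Pool.Agent.LPZ.ZRed
import Pool.Agent.LPZ.ZDefs

/-!
# Lifting a linkage from the projection (module ZLink)

`R = (NR N K s0 u, K')`, `s0 = s 0`, `X = O.erase s0`, `ZGood` for `t 0`.  Given `S'` for `R` (with `O' = X.image e`), put
`T 0 = {s0} ∪ S (t 0)`, `T i.succ = S (s i.succ) ∪ S (t i.succ) ∪ S' i`.
`S' i ⊆ NR` (every element is `e (s i.succ)` or the end of an edge of `R`), `u = e (t 0) ∈ O'` is not in `S' i`.  So all edges of `R` used in `S' i` are edges of `N` (`hadj`).
A vertex `v ∈ S x` with `v ≠ e x` is not in `NR` (`inner`), and `e x ∈ O'` is in `S' i` only if `x = s i.succ` or `x = t i.succ` (`e` is injective on `X` by `disj`).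
Disjointness, `O`: an element `x ∈ O` in `T i.succ`: `x ≠ s0`; if `x ∈ S y` then `x = y`; if `x ∈ S' i` then `x ∈ NR`, so `x = e x` (otherwise `inner`), `x ∈ O'`, so `x = e (s i.succ)` or ...,
so `x = s i.succ` or `t i.succ`.
Walks from `s i.succ`: in `S (s i.succ)` to `e (s i.succ)` (this set does not contain `t i.succ`, so the forbidden edge is not used), in `S' i` to `e (t i.succ)`, in
`S (t i.succ)` (walks can be reversed).  Forbidden edge: let `bad i.succ` and suppose an arc `s i.succ, t i.succ` (in some order) is used in `S' i`; then both are in `NR`, so both have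
not moved (`inner`), and the arc is an edge of `R` joining `e (s i.succ)` and `e (t i.succ)`: so the new flag is set and the arc is forbidden in `R` as well.
`T 0`: `s0`, then the edge `s0 u`, `u ∈ S (t 0)`; `bad 0` is false.
-/

set_option autoImplicit false

namespace Pool.Agent.LPG

variable {W : Type*} [AddCommGroup W] [Module ℝ W] {N : Finset W} {K : Submodule ℝ W}

private theorem zl_inj {s : W} {X : Finset W} {t u : W} {S : W → Finset W} {e : W → W}
    (hG : ZGood N K s X t u S e) {x y : W} (hx : x ∈ X) (hy : y ∈ X) (h : e x = e y) :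
    x = y := by
  by_contra hne
  exact Finset.disjoint_left.1 (hG.disj x hx y hy hne) (hG.mem x hx).2
    (h ▸ (hG.mem y hy).2)

private theorem zl_self {s : W} {X : Finset W} {t u : W} {S : W → Finset W} {e : W → W}
    (hG : ZGood N K s X t u S e) {x v : W} (hx : x ∈ X) (hv : v ∈ S x) (hvX : v ∈ X) :
    v = x := by
  by_contra hne
  exact Finset.disjoint_left.1 (hG.disj v hvX x hx hne) (hG.mem v hvX).1 hv

private theorem zl_in {s : W} {X : Finset W} {t u : W} {S : W → Finset W} {e : W → W}
    (hG : ZGood N K s X t u S e) {x v : W} (hx : x ∈ X) (hv : v ∈ S x)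
    (hvR : v ∈ NR N K s u) : v = e x := by
  by_contra hne
  obtain ⟨h1, h2⟩ := hG.inner x hx v hv hne
  rcases (mem_NR.1 hvR).2.2 with h3 | h3
  · exact h1 h3
  · exact h3 h2

private theorem zl_out {s : W} {X : Finset W} {t u : W} {S : W → Finset W} {e : W → W}
    (hG : ZGood N K s X t u S e) {x : W} (hx : x ∈ X) (hxt : x ≠ t) : e x ∈ NR N K s u := by
  have h1 := hG.sub x hx _ (hG.mem x hx).2
  exact mem_NR.2 ⟨h1.1, h1.2, Or.inr (hG.out x hx hxt).2⟩

/-- Steps inside a finite set which do not use a forbidden edge. -/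
private def zlR (N : Finset W) (K : Submodule ℝ W) (T : Finset W) (P : Prop) (x y : W)
    (p q : W) : Prop :=
  Adj N K p q ∧ p ∈ T ∧ q ∈ T ∧ ¬ (P ∧ ((p = x ∧ q = y) ∨ (p = y ∧ q = x)))

private theorem zlR_symm {T : Finset W} {P : Prop} {x y p q : W} (h : zlR N K T P x y p q) :
    zlR N K T P x y q p := by
  refine ⟨adj_symm h.1, h.2.2.1, h.2.1, fun hc => h.2.2.2 ⟨hc.1, ?_⟩⟩
  rcases hc.2 with h1 | h1
  · exact Or.inr ⟨h1.2, h1.1⟩
  · exact Or.inl ⟨h1.2, h1.1⟩

private theorem zlW_symm {T : Finset W} {P : Prop} {x y p q : W}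
    (h : Relation.ReflTransGen (zlR N K T P x y) p q) :
    Relation.ReflTransGen (zlR N K T P x y) q p := by
  induction h with
  | refl => exact Relation.ReflTransGen.refl
  | tail _ h2 ih => exact Relation.ReflTransGen.head (zlR_symm h2) ih

/-- walks in a set which misses one end of the forbidden edge -/
private theorem zlW_of {U T : Finset W} {P : Prop} {x y p q : W} (hUT : U ⊆ T)
    (hxy : x ∉ U ∨ y ∉ U)
    (h : Relation.ReflTransGen (fun p q => Adj N K p q ∧ p ∈ U ∧ q ∈ U) p q) :
    Relation.ReflTransGen (zlR N K T P x y) p q := by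
  refine Relation.ReflTransGen.mono ?_ _ _ h
  rintro a b ⟨h1, h2, h3⟩
  refine ⟨h1, hUT h2, hUT h3, ?_⟩
  rintro ⟨_, ⟨rfl, rfl⟩ | ⟨rfl, rfl⟩⟩
  · rcases hxy with h4 | h4
    · exact h4 h2
    · exact h4 h3
  · rcases hxy with h4 | h4
    · exact h4 h3
    · exact h4 h2

theorem zlink [DecidableEq W] {O : Finset W} {m : ℕ} {s t : Fin (m + 1) → W}
    {bad : Fin (m + 1) → Prop} (hst : State N K O s t bad) (hb : ¬ bad 0) {u : W}
    {S : W → Finset W} {e : W → W} (hG : ZGood N K (s 0) (O.erase (s 0)) (t 0) u S e)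
    {K' : Submodule ℝ W}
    (hadj : ∀ v v' : W, v ≠ u → v' ≠ u → Adj (NR N K (s 0) u) K' v v' → Adj N K v v')
    (hL : Linked2 (NR N K (s 0) u) K' ((O.erase (s 0)).image e)
      (fun i : Fin m => e (s i.succ)) (fun i : Fin m => e (t i.succ))
      (fun i : Fin m => bad i.succ ∧ Adj (NR N K (s 0) u) K' (e (s i.succ)) (e (t i.succ)))) :
    Linked2 N K O s t bad := by
  have hb0 : ¬ bad 0 := hb
  obtain ⟨S', hS'd, hS'⟩ := hL
  simp only at hS'
  set X := O.erase (s 0) with hX
  have hsX : ∀ i : Fin m, s i.succ ∈ X := fun i =>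
    Finset.mem_erase.2 ⟨fun h => Fin.succ_ne_zero i (hst.sinj _ _ h), hst.smem _⟩
  have htX : ∀ i : Fin (m + 1), t i ∈ X := fun i =>
    Finset.mem_erase.2 ⟨fun h => hst.st _ _ h.symm, hst.tmem _⟩
  have heO : ∀ x ∈ X, e x ∈ X.image e := fun x hx => Finset.mem_image_of_mem _ hx
  have hne : ∀ x ∈ X, ∀ v ∈ S x, v ≠ s 0 := fun x hx v hv => (hG.sub x hx v hv).2
  have nst0 : ∀ i : Fin m, s i.succ ≠ t 0 := fun i => hst.st _ _
  have ntt0 : ∀ i : Fin m, t i.succ ≠ t 0 := fun i h => Fin.succ_ne_zero i (hst.tinj _ _ h)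
  have hR : ∀ i : Fin m, ∀ v ∈ S' i, v ∈ NR N K (s 0) u := by
    intro i v hv
    rcases Relation.ReflTransGen.cases_tail ((hS' i).2.2.2 v hv) with h | ⟨w, _, h⟩
    · rw [h]
      exact zl_out hG (hsX i) (nst0 i)
    · exact h.1.2.1
  have hu : ∀ i : Fin m, ∀ v ∈ S' i, v ≠ u := by
    rintro i v hv rfl
    have h1 : v ∈ X.image e := by
      have := heO _ (htX 0)
      rwa [hG.et] at this
    rcases (hS' i).2.2.1 v hv h1 with h | h
    · exact (hG.out _ (hsX i) (nst0 i)).1 h.symm
    · exact (hG.out _ (htX i.succ) (ntt0 i)).1 h.symm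
  have h1B : ∀ (i : Fin m) (x v : W), x ∈ X → v ∈ S x → v ∈ S' i →
      x = s i.succ ∨ x = t i.succ := by
    intro i x v hx hv hv'
    have h1 := zl_in hG hx hv (hR i v hv')
    subst h1
    rcases (hS' i).2.2.1 _ hv' (heO x hx) with h2 | h2
    · exact Or.inl (zl_inj hG hx (hsX i) h2)
    · exact Or.inr (zl_inj hG hx (htX i.succ) h2)
  have hBs : ∀ i, s 0 ∉ S' i := fun i hi => (mem_NR.1 (hR i _ hi)).2.1 rfl
  set T : Fin (m + 1) → Finset W := Fin.cons (insert (s 0) (S (t 0)))
    (fun i => S (s i.succ) ∪ S (t i.succ) ∪ S' i) with hT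
  have hT0 : T 0 = insert (s 0) (S (t 0)) := rfl
  have hTs : ∀ i : Fin m, T i.succ = S (s i.succ) ∪ S (t i.succ) ∪ S' i := fun i => rfl
  have hd0 : ∀ i : Fin m, Disjoint (T 0) (T i.succ) := by
    intro i
    rw [Finset.disjoint_left, hT0, hTs]
    intro v hv hv'
    rw [Finset.mem_insert] at hv
    rw [Finset.mem_union, Finset.mem_union] at hv'
    rcases hv with rfl | hv
    · rcases hv' with (hv' | hv') | hv'
      · exact hne _ (hsX i) _ hv' rfl
      · exact hne _ (htX i.succ) _ hv' rfl
      · exact hBs i hv'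
    · rcases hv' with (hv' | hv') | hv'
      · exact Finset.disjoint_left.1 (hG.disj _ (htX 0) _ (hsX i) (nst0 i).symm) hv hv'
      · exact Finset.disjoint_left.1 (hG.disj _ (htX 0) _ (htX i.succ) (ntt0 i).symm) hv hv'
      · rcases h1B i _ v (htX 0) hv hv' with h | h
        · exact nst0 i h.symm
        · exact ntt0 i h.symm
  have hd1 : ∀ i j : Fin m, i ≠ j → Disjoint (T i.succ) (T j.succ) := by
    intro i j hij
    rw [Finset.disjoint_left, hTs, hTs]
    intro v hv hv'
    rw [Finset.mem_union, Finset.mem_union] at hv hv'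
    have hij' : i.succ ≠ j.succ := fun h => hij (Fin.succ_injective _ h)
    have nss : s i.succ ≠ s j.succ := fun h => hij' (hst.sinj _ _ h)
    have ntt : t i.succ ≠ t j.succ := fun h => hij' (hst.tinj _ _ h)
    have nst : s i.succ ≠ t j.succ := hst.st _ _
    have nts : t i.succ ≠ s j.succ := fun h => hst.st _ _ h.symm
    rcases hv with (hv | hv) | hv <;> rcases hv' with (hv' | hv') | hv'
    · exact Finset.disjoint_left.1 (hG.disj _ (hsX i) _ (hsX j) nss) hv hv'
    · exact Finset.disjoint_left.1 (hG.disj _ (hsX i) _ (htX j.succ) nst) hv hv'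
    · rcases h1B j _ v (hsX i) hv hv' with h | h
      · exact nss h
      · exact nst h
    · exact Finset.disjoint_left.1 (hG.disj _ (htX i.succ) _ (hsX j) nts) hv hv'
    · exact Finset.disjoint_left.1 (hG.disj _ (htX i.succ) _ (htX j.succ) ntt) hv hv'
    · rcases h1B j _ v (htX i.succ) hv hv' with h | h
      · exact nts h
      · exact ntt h
    · rcases h1B i _ v (hsX j) hv' hv with h | h
      · exact nss h.symm
      · exact nts h.symm
    · rcases h1B i _ v (htX j.succ) hv' hv with h | h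
      · exact nst h.symm
      · exact ntt h.symm
    · exact Finset.disjoint_left.1 (hS'd i j hij) hv hv'
  refine ⟨T, ?_, ?_⟩
  · intro i j
    refine Fin.cases ?_ (fun i' => ?_) i <;> refine Fin.cases ?_ (fun j' => ?_) j
    · intro h3
      exact absurd rfl h3
    · intro _
      exact hd0 j'
    · intro _
      exact (hd0 i').symm
    · intro h3
      exact hd1 i' j' (fun h4 => h3 (by rw [h4]))
  · intro i
    refine Fin.cases ?_ (fun i' => ?_) i
    · have hsub : S (t 0) ⊆ T 0 := by
        rw [hT0]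
        exact Finset.subset_insert _ _
      have hs0T : s 0 ∈ T 0 := by
        rw [hT0]
        exact Finset.mem_insert_self _ _
      have hsn : s 0 ∉ S (t 0) := fun h => hne _ (htX 0) _ h rfl
      have hmem := hG.mem _ (htX 0)
      refine ⟨hs0T, hsub hmem.1, fun v hv hvO => ?_, fun v hv => ?_⟩
      · rw [hT0, Finset.mem_insert] at hv
        rcases hv with rfl | hv
        · exact Or.inl rfl
        · exact Or.inr (zl_self hG (htX 0) hv (Finset.mem_erase.2 ⟨hne _ (htX 0) _ hv, hvO⟩))
      · rw [hT0, Finset.mem_insert] at hv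
        rcases hv with rfl | hv
        · exact Relation.ReflTransGen.refl
        · have p1 : Relation.ReflTransGen (zlR N K (T 0) (bad 0) (s 0) (t 0)) (t 0) v :=
            zlW_of hsub (Or.inl hsn) (hG.conn _ (htX 0) v hv)
          have p2 : Relation.ReflTransGen (zlR N K (T 0) (bad 0) (s 0) (t 0)) (e (t 0)) (t 0) :=
            zlW_symm (zlW_of hsub (Or.inl hsn) (hG.conn _ (htX 0) _ hmem.2))
          have p3 : zlR N K (T 0) (bad 0) (s 0) (t 0) (s 0) (e (t 0)) := by
            refine ⟨?_, hs0T, hsub hmem.2, fun h => hb0 h.1⟩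
            rw [hG.et]
            exact hG.adj
          exact Relation.ReflTransGen.head p3 (p2.trans p1)
    · have hsubl : S (s i'.succ) ⊆ T i'.succ := by
        rw [hTs]
        exact Finset.subset_union_left.trans Finset.subset_union_left
      have hsubr : S (t i'.succ) ⊆ T i'.succ := by
        rw [hTs]
        exact Finset.subset_union_right.trans Finset.subset_union_left
      have hsubB : S' i' ⊆ T i'.succ := by
        rw [hTs]
        exact Finset.subset_union_right
      have hms := hG.mem _ (hsX i')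
      have hmt := hG.mem _ (htX i'.succ)
      have htn : t i'.succ ∉ S (s i'.succ) := fun h =>
        hst.st _ _ (zl_self hG (hsX i') h (htX i'.succ)).symm
      have hsn : s i'.succ ∉ S (t i'.succ) := fun h =>
        hst.st _ _ (zl_self hG (htX i'.succ) h (hsX i'))
      refine ⟨hsubl hms.1, hsubr hmt.1, fun v hv hvO => ?_, fun v hv => ?_⟩
      · rw [hTs, Finset.mem_union, Finset.mem_union] at hv
        rcases hv with (hv | hv) | hv
        · exact Or.inl (zl_self hG (hsX i') hv (Finset.mem_erase.2 ⟨hne _ (hsX i') _ hv, hvO⟩))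
        · exact Or.inr (zl_self hG (htX i'.succ) hv
            (Finset.mem_erase.2 ⟨hne _ (htX i'.succ) _ hv, hvO⟩))
        · have hvs : v ≠ s 0 := fun h => hBs i' (h ▸ hv)
          have hvX : v ∈ X := Finset.mem_erase.2 ⟨hvs, hvO⟩
          exact h1B i' v v hvX (hG.mem v hvX).1 hv
      · have p1 : Relation.ReflTransGen
            (zlR N K (T i'.succ) (bad i'.succ) (s i'.succ) (t i'.succ)) (s i'.succ)
            (e (s i'.succ)) := zlW_of hsubl (Or.inr htn) (hG.conn _ (hsX i') _ hms.2)
        have p2 : ∀ w ∈ S' i', Relation.ReflTransGen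
            (zlR N K (T i'.succ) (bad i'.succ) (s i'.succ) (t i'.succ)) (e (s i'.succ)) w := by
          intro w hw
          refine Relation.ReflTransGen.mono ?_ _ _ ((hS' i').2.2.2 w hw)
          rintro p q ⟨hpq, hp, hq, hno⟩
          refine ⟨hadj p q (hu i' p hp) (hu i' q hq) hpq, hsubB hp, hsubB hq, ?_⟩
          rintro ⟨hbad, ⟨h1, h2⟩ | ⟨h1, h2⟩⟩
          · have h3 : p = e (s i'.succ) := zl_in hG (hsX i') (h1 ▸ hms.1) (hR i' p hp)
            have h4 : q = e (t i'.succ) := zl_in hG (htX i'.succ) (h2 ▸ hmt.1) (hR i' q hq)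
            exact hno ⟨⟨hbad, by rw [← h3, ← h4]; exact hpq⟩, Or.inl ⟨h3, h4⟩⟩
          · have h3 : p = e (t i'.succ) := zl_in hG (htX i'.succ) (h1 ▸ hmt.1) (hR i' p hp)
            have h4 : q = e (s i'.succ) := zl_in hG (hsX i') (h2 ▸ hms.1) (hR i' q hq)
            exact hno ⟨⟨hbad, by rw [← h3, ← h4]; exact adj_symm hpq⟩, Or.inr ⟨h3, h4⟩⟩
        rw [hTs, Finset.mem_union, Finset.mem_union] at hv
        rcases hv with (hv | hv) | hv
        · exact zlW_of hsubl (Or.inr htn) (hG.conn _ (hsX i') v hv)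
        · have p3 := p2 _ (hS' i').2.1
          have p4 : Relation.ReflTransGen
              (zlR N K (T i'.succ) (bad i'.succ) (s i'.succ) (t i'.succ)) (e (t i'.succ))
              (t i'.succ) :=
            zlW_symm (zlW_of hsubr (Or.inl hsn) (hG.conn _ (htX i'.succ) _ hmt.2))
          have p5 : Relation.ReflTransGen
              (zlR N K (T i'.succ) (bad i'.succ) (s i'.succ) (t i'.succ)) (t i'.succ) v :=
            zlW_of hsubr (Or.inl hsn) (hG.conn _ (htX i'.succ) v hv)
          exact ((p1.trans p3).trans p4).trans p5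
        · exact p1.trans (p2 v hv)

end Pool.Agent.LPG
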