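import Pool.Agent.LPZ.ZRoute
import Pool.Agent.LPZ.ZLink

/-!
# The zero-cost step (module ZStep)

Pair `0` is not bad and `t 0` is a coloop of `O`: apply `zroute` with `X = O.erase (s 0)` (`insert (s 0) X = O`), `red`, `zlink`.  `N' = NR N K (s 0) u`, `K' = ad K (s 0 - η u)`,
`O' = X.image e`, `s' i = e (s i.succ)`, `t' i = e (t i.succ)`.  `O'.card = X.card` (`e` injective on `X`).  `State`: `e x ∈ NR` by `out` and `et`.
Coloops: let `x ∈ X`, `x ≠ t 0`, `Cl K O x`; then `Cl K (insert (s 0) (e '' X)) (e x)` by `cl`, and `ad K (s 0 - η u) ⊔ span (O' \ {e x}) ≤ K ⊔ span (insert (s 0) O' \ {e x})` because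
`u = e (t 0) ∈ O'`, `u ≠ e x`, `s 0 ≠ e x`.
-/

set_option autoImplicit false

namespace Pool.Agent.LPG

variable {W : Type*} [AddCommGroup W] [Module ℝ W] {N : Finset W} {K : Submodule ℝ W}

theorem zstep {O : Finset W} {m : ℕ} {s t : Fin (m + 1) → W}
    {bad : Fin (m + 1) → Prop} (hst : State N K O s t bad) (hb : ¬ bad 0)
    (hcl : Cl K (O : Set W) (t 0)) {n : ℕ} (hn : DimGe N K (n + 1)) (hc : O.card ≤ n) :
    ∃ (N' : Finset W) (K' : Submodule ℝ W) (O' : Finset W) (s' t' : Fin m → W)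
      (bad' : Fin m → Prop), State N' K' O' s' t' bad' ∧ DimGe N' K' n ∧ O'.card + 1 = O.card ∧
      (∀ i, bad' i → bad i.succ) ∧
      (∀ i, Cl K (O : Set W) (s i.succ) → Cl K' (O' : Set W) (s' i)) ∧
      (∀ i, Cl K (O : Set W) (t i.succ) → Cl K' (O' : Set W) (t' i)) ∧
      (Linked2 N' K' O' s' t' bad' → Linked2 N K O s t bad) := by
  classical
  have hs0 : s 0 ∈ O := hst.smem 0
  have hsX : s 0 ∉ O.erase (s 0) := Finset.notMem_erase _ _
  have hXN : O.erase (s 0) ⊆ N := (Finset.erase_subset _ _).trans hst.sub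
  have hcard : (O.erase (s 0)).card + 1 = O.card := Finset.card_erase_add_one hs0
  have htX : t 0 ∈ O.erase (s 0) := Finset.mem_erase.2 ⟨(hst.st 0 0).symm, hst.tmem 0⟩
  have hins : (insert (s 0) ((O.erase (s 0) : Finset W) : Set W)) = (O : Set W) := by
    rw [← Finset.coe_insert, Finset.insert_erase hs0]
  obtain ⟨u, S, e, hG⟩ := zroute hst.poly (hst.sub hs0) hn hXN hsX (by omega) htX
    (by rw [hins]; exact hcl)
  obtain ⟨η, hη, hpoly, hdim, hadj⟩ := red hst.poly (mem_nb.2 hG.adj)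
  have huN : u ∈ NR N K (s 0) u := mem_NR.2 ⟨hG.adj.2.1, hG.adj.2.2.1.symm, Or.inl rfl⟩
  have hinj : ∀ x ∈ O.erase (s 0), ∀ y ∈ O.erase (s 0), e x = e y → x = y := by
    intro x hx y hy hxy
    by_contra hne
    exact Finset.disjoint_left.1 (hG.disj x hx y hy hne) (hG.mem x hx).2
      (hxy ▸ (hG.mem y hy).2)
  have hsm : ∀ i : Fin m, s i.succ ∈ O.erase (s 0) := fun i =>
    Finset.mem_erase.2 ⟨fun h => Fin.succ_ne_zero i (hst.sinj _ _ h), hst.smem _⟩
  have htm : ∀ i : Fin m, t i.succ ∈ O.erase (s 0) := fun i =>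
    Finset.mem_erase.2 ⟨(hst.st _ _).symm, hst.tmem _⟩
  have hclK : ∀ x ∈ O.erase (s 0), x ≠ t 0 → Cl K (O : Set W) x →
      Cl (ad K (s 0 - η • u)) (((O.erase (s 0)).image e : Finset W) : Set W) (e x) := by
    intro x hx hxt h1 h2
    have h3 := hG.cl x hx (by rw [hins]; exact h1)
    apply h3
    have hle : ad K (s 0 - η • u) ⊔
        Submodule.span ℝ ((((O.erase (s 0)).image e : Finset W) : Set W) \ {e x}) ≤
        K ⊔ Submodule.span ℝ ((insert (s 0) (e '' ((O.erase (s 0) : Finset W) : Set W))) \ {e x}) := by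
      have hex := hG.sub x hx (e x) (hG.mem x hx).2
      have hs0m : s 0 ∈ K ⊔ Submodule.span ℝ
          ((insert (s 0) (e '' ((O.erase (s 0) : Finset W) : Set W))) \ {e x}) :=
        (le_sup_right : _ ≤ K ⊔ _) (Submodule.subset_span ⟨Set.mem_insert _ _, by
          simpa using hex.2.symm⟩)
      have hum : u ∈ K ⊔ Submodule.span ℝ
          ((insert (s 0) (e '' ((O.erase (s 0) : Finset W) : Set W))) \ {e x}) :=
        (le_sup_right : _ ≤ K ⊔ _) (Submodule.subset_span
          ⟨Set.mem_insert_of_mem _ ⟨t 0, htX, hG.et⟩, by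
            simpa using (hG.out x hx hxt).1.symm⟩)
      refine sup_le (sup_le le_sup_left ?_) ?_
      · rw [Submodule.span_singleton_le_iff_mem]
        exact Submodule.sub_mem _ hs0m (Submodule.smul_mem _ _ hum)
      · refine le_trans (Submodule.span_mono ?_) le_sup_right
        rintro y ⟨hy, hyx⟩
        refine ⟨Set.mem_insert_of_mem _ ?_, hyx⟩
        rw [Finset.coe_image] at hy
        exact hy
    exact hle h2
  refine ⟨NR N K (s 0) u, ad K (s 0 - η • u), (O.erase (s 0)).image e,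
    fun i => e (s i.succ), fun i => e (t i.succ),
    fun i => bad i.succ ∧ Adj (NR N K (s 0) u) (ad K (s 0 - η • u)) (e (s i.succ)) (e (t i.succ)),
    ?_, hdim n hn, ?_, fun i h => h.1, ?_, ?_, ?_⟩
  · refine ⟨hpoly, ?_, fun i => Finset.mem_image_of_mem _ (hsm i),
      fun i => Finset.mem_image_of_mem _ (htm i), ?_, ?_, ?_, fun i h => h.2⟩
    · intro y hy
      obtain ⟨x, hx, rfl⟩ := Finset.mem_image.1 hy
      by_cases hxt : x = t 0
      · rw [hxt, hG.et]
        exact huN
      · have hex := hG.sub x hx (e x) (hG.mem x hx).2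
        exact mem_NR.2 ⟨hex.1, hex.2, Or.inr (hG.out x hx hxt).2⟩
    · intro i j h
      exact Fin.succ_injective _ (hst.sinj _ _ (hinj _ (hsm i) _ (hsm j) h))
    · intro i j h
      exact Fin.succ_injective _ (hst.tinj _ _ (hinj _ (htm i) _ (htm j) h))
    · intro i j h
      exact hst.st _ _ (hinj _ (hsm i) _ (htm j) h)
  · rw [Finset.card_image_of_injOn (fun x hx y hy h => hinj x hx y hy h), hcard]
  · intro i h
    refine hclK _ (hsm i) (hst.st _ _) h
  · intro i h
    refine hclK _ (htm i) (fun h1 => Fin.succ_ne_zero i (hst.tinj _ _ h1)) h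
  · intro hL
    exact zlink hst hb hG hadj hL

end Pool.Agent.LPG
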