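import Pool.Agent.LPZ.ZDefs

/-!
# Decreasing paths (module ZDec)

`jn_trans`, `jn_self`: directly from the definition (a functional which is `≥ 0` on `N` and vanishes at `s` and `v` vanishes
at `x`, hence at `y`).  `jn_nb`: the functional which exposes the edge `s v` is positive at all other elements of `N`.

`dec_path` (Lemma D): let `R` be the set (Finset filter of `N`) of all `v` which can be reached from `w` by arcs `Dec` inside
`{f > 0}` (all of them are `≠ s`).  Choose `v ∈ R` for which the number of `x ∈ N` with `Jn N K s v x` is least.  For every `v'`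
reachable from `v` (in the same way) the face of `v'` is contained in the face of `v` (`jn_trans`), so by minimality both faces
have the same elements of `N`: `Jn N K s v x ↔ Jn N K s v' x` for `x ∈ N` (*).
Let `G = N.filter (Jn N K s v ·)`.  `Poly G K` (same functionals).  `Adj G K p q` implies `Adj N K p q` (`adj_face`): let `f0` be
the functional of the edge `p q` of `G`; for every `x ∈ N \ G` there is a functional `h_x ≥ 0` on `N`, zero on `K`, at `s` and at `v`,
positive at `x`; `h_x` vanishes on `G` (definition of `Jn`); let `h0 = ∑ h_x` over `x ∈ N \ G`: zero on `G`, positive on `N \ G`; then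
`f0 + c h0` works for large `c`.
There is `u0 ∈ G`, `Adj G K s u0`, and a walk in `G ∩ {f > 0}` from `v` to `u0` which avoids `s`, or just: some neighbour of `s` in `G` can
be reached from `v` inside `G ∩ {f > 0} \ {s}`:
 * `f s = 0`: `pos_nb` for `Poly G K` gives `u0 ∈ nb G K s` with `f u0 > 0`; `conn` for `Poly G K` gives a walk from `v` to `u0` in
   `{f > 0}`, it avoids `s` since `f s = 0`.
 * `f s > 0`: `conn` gives a walk in `G ∩ {f > 0}` from `v` to `s`; take the last vertex before the first visit of `s`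
   (induction over the walk).
By (*) all arcs `p → q` of this walk (`p, q ≠ s`, `q ∈ G`) are `Dec` arcs: by induction every `p` on the walk is reachable from `v`, so
`Jn N K s p q ↔ Jn N K s v q`, which holds as `q ∈ G`.
-/

set_option autoImplicit false

namespace Pool.Agent.LPG

variable {W : Type*} [AddCommGroup W] [Module ℝ W] {N : Finset W} {K : Submodule ℝ W}

theorem jn_trans {s v x y : W} (h1 : Jn N K s v x) (h2 : Jn N K s x y) : Jn N K s v y := by
  exact fun f h3 h4 h5 h6 => h2 f h3 h4 h5 (h1 f h3 h4 h5 h6)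

theorem jn_self (s v : W) : Jn N K s v v := by
  exact fun f _ _ _ h => h

theorem jn_left (s v : W) : Jn N K s v s := by
  exact fun f _ _ h _ => h

/-- the face `s ∨ v` is the edge `s v` if `v` is a neighbour of `s` -/
theorem jn_nb {s v x : W} (hv : v ∈ nb N K s) (hx : x ∈ N) (h : Jn N K s v x) : x = s ∨ x = v := by
  obtain ⟨-, -, -, f, f1, f2, f3, f4⟩ := mem_nb.1 hv
  by_contra hc
  rw [not_or] at hc
  have h1 := f4 x hx hc.1 hc.2
  have h2 : ∀ y ∈ N, 0 ≤ f y := by
    intro y hy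
    by_cases hys : y = s
    · rw [hys, f2]
    · by_cases hyv : y = v
      · rw [hyv, f3]
      · exact (f4 y hy hys hyv).le
  exact h1.ne' (h f f1 h2 f2 f3)

private theorem ZDec_poly (h : Poly N K) {G : Finset W} (hG : G ⊆ N) : Poly G K := by
  refine ⟨fun v hv => ?_, ?_⟩
  · obtain ⟨f, h1, h2, h3⟩ := h.1 v (hG hv)
    exact ⟨f, h1, h2, fun w hw hwv => h3 w (hG hw) hwv⟩
  · obtain ⟨f, h1, h2⟩ := h.2
    exact ⟨f, h1, fun w hw => h2 w (hG hw)⟩

private theorem ZDec_adj {G : Finset W} (hG : G ⊆ N) {s v : W}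
    (hGd : ∀ x ∈ N, x ∈ G ↔ Jn N K s v x) {p q : W} (hpq : Adj G K p q) : Adj N K p q := by
  classical
  obtain ⟨hp, hq, hne, f0, hf0K, hf0p, hf0q, hf0⟩ := hpq
  have hx : ∀ x ∈ N \ G, ∃ g : W →ₗ[ℝ] ℝ, (∀ z ∈ K, g z = 0) ∧ (∀ y ∈ N, 0 ≤ g y) ∧
      (∀ y ∈ G, g y = 0) ∧ 0 < g x := by
    intro x hx
    rw [Finset.mem_sdiff] at hx
    have h1 : ¬ Jn N K s v x := fun h => hx.2 ((hGd x hx.1).2 h)
    unfold Jn at h1
    push Not at h1
    obtain ⟨g, g1, g2, g3, g4, g5⟩ := h1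
    exact ⟨g, g1, g2, fun y hy => ((hGd y (hG hy)).1 hy) g g1 g2 g3 g4,
      lt_of_le_of_ne (g2 x hx.1) (Ne.symm g5)⟩
  choose! g g1 g2 g3 g4 using hx
  obtain ⟨h0, hh⟩ : ∃ h0 : W →ₗ[ℝ] ℝ, ∀ y, h0 y = ∑ x ∈ N \ G, g x y :=
    ⟨∑ x ∈ N \ G, g x, fun y => by rw [LinearMap.sum_apply]⟩
  have hK0 : ∀ z ∈ K, h0 z = 0 := fun z hz => by
    rw [hh]
    exact Finset.sum_eq_zero fun x hx => g1 x hx z hz
  have hG0 : ∀ y ∈ G, h0 y = 0 := fun y hy => by
    rw [hh]
    exact Finset.sum_eq_zero fun x hx => g3 x hx y hy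
  have hpos : ∀ y ∈ N \ G, 0 < h0 y := fun y hy => by
    rw [hh]
    exact Finset.sum_pos' (fun x hx => g2 x hx y (Finset.mem_sdiff.1 hy).1) ⟨y, hy, g4 y hy⟩
  refine ⟨hG hp, hG hq, hne, f0 + (1 + ∑ x ∈ N \ G, |f0 x| / h0 x) • h0, ?_, ?_, ?_, ?_⟩
  · intro z hz
    rw [LinearMap.add_apply, LinearMap.smul_apply, hf0K z hz, hK0 z hz, smul_zero, add_zero]
  · rw [LinearMap.add_apply, LinearMap.smul_apply, hf0p, hG0 p hp, smul_zero, add_zero]
  · rw [LinearMap.add_apply, LinearMap.smul_apply, hf0q, hG0 q hq, smul_zero, add_zero]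
  · intro y hy hyp hyq
    rw [LinearMap.add_apply, LinearMap.smul_apply, smul_eq_mul]
    by_cases hyG : y ∈ G
    · rw [hG0 y hyG, mul_zero, add_zero]
      exact hf0 y hyG hyp hyq
    · have hyd : y ∈ N \ G := Finset.mem_sdiff.2 ⟨hy, hyG⟩
      have h1 := hpos y hyd
      have h2 : |f0 y| / h0 y ≤ ∑ x ∈ N \ G, |f0 x| / h0 x :=
        Finset.single_le_sum (f := fun x => |f0 x| / h0 x)
          (fun x hx => div_nonneg (abs_nonneg _) (hpos x hx).le) hyd
      have h3 : |f0 y| / h0 y * h0 y = |f0 y| := div_mul_cancel₀ _ h1.ne'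
      have h4 := mul_le_mul_of_nonneg_right h2 h1.le
      have h5 := neg_abs_le (f0 y)
      nlinarith

/-- the last vertex before the first visit of `s` -/
private theorem ZDec_last {G : Finset W} {s : W} (f : W →ₗ[ℝ] ℝ) {v : W}
    (h : Relation.ReflTransGen (fun p q => Adj G K p q ∧ 0 < f p ∧ 0 < f q) v s) (hv : v ≠ s) :
    ∃ u, Adj G K u s ∧ 0 < f u ∧ Relation.ReflTransGen
      (fun p q => Adj G K p q ∧ 0 < f p ∧ 0 < f q ∧ p ≠ s ∧ q ≠ s) v u := by
  induction h using Relation.ReflTransGen.head_induction_on with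
  | refl => exact absurd rfl hv
  | head hac hcs ih =>
    rename_i a c
    by_cases hc : c = s
    · subst hc
      exact ⟨a, hac.1, hac.2.1, Relation.ReflTransGen.refl⟩
    · obtain ⟨u, hu1, hu2, hu3⟩ := ih hc
      exact ⟨u, hu1, hu2, Relation.ReflTransGen.head ⟨hac.1, hac.2.1, hac.2.2, hv, hc⟩ hu3⟩

/-- Lemma D. -/
theorem dec_path (h : Poly N K) {s w : W} (hs : s ∈ N) (hw : w ∈ N) (hws : w ≠ s)
    (f : W →ₗ[ℝ] ℝ) (hK : ∀ z ∈ K, f z = 0) (hfs : 0 ≤ f s) (hfw : 0 < f w) :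
    ∃ u ∈ nb N K s, 0 < f u ∧
      Relation.ReflTransGen (fun p q => Dec N K s p q ∧ 0 < f p ∧ 0 < f q) w u := by
  classical
  -- the reachable vertices
  have hreach : ∀ v, Relation.ReflTransGen (fun p q => Dec N K s p q ∧ 0 < f p ∧ 0 < f q) w v →
      v ∈ N ∧ v ≠ s ∧ 0 < f v := by
    intro v hv
    induction hv with
    | refl => exact ⟨hw, hws, hfw⟩
    | tail _ h2 _ => exact ⟨h2.1.1.2.1, h2.1.2.2.1, h2.2.2⟩
  obtain ⟨v, hvR, hmin⟩ := Finset.exists_min_image
    (N.filter fun v => Relation.ReflTransGen (fun p q => Dec N K s p q ∧ 0 < f p ∧ 0 < f q) w v)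
    (fun v => (N.filter (Jn N K s v)).card)
    ⟨w, Finset.mem_filter.2 ⟨hw, Relation.ReflTransGen.refl⟩⟩
  rw [Finset.mem_filter] at hvR
  obtain ⟨hvN, hwv⟩ := hvR
  obtain ⟨-, hvs, hfv⟩ := hreach v hwv
  have hjn : ∀ v', Relation.ReflTransGen (fun p q => Dec N K s p q ∧ 0 < f p ∧ 0 < f q) v v' →
      Jn N K s v v' := by
    intro v' hv'
    induction hv' with
    | refl => exact jn_self s v
    | tail _ h2 ih => exact jn_trans ih h2.1.2.2.2
  have hstar : ∀ v', Relation.ReflTransGen (fun p q => Dec N K s p q ∧ 0 < f p ∧ 0 < f q) v v' →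
      ∀ x ∈ N, Jn N K s v x → Jn N K s v' x := by
    intro v' hv' x hx hvx
    have hsub : N.filter (Jn N K s v') ⊆ N.filter (Jn N K s v) := by
      intro y hy
      rw [Finset.mem_filter] at hy ⊢
      exact ⟨hy.1, jn_trans (hjn v' hv') hy.2⟩
    have h1 := hmin v' (Finset.mem_filter.2 ⟨(hreach v' (hwv.trans hv')).1, hwv.trans hv'⟩)
    have h2 := Finset.eq_of_subset_of_card_le hsub h1
    have h3 : x ∈ N.filter (Jn N K s v) := Finset.mem_filter.2 ⟨hx, hvx⟩
    rw [← h2] at h3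
    exact (Finset.mem_filter.1 h3).2
  -- the face
  have hGN : N.filter (Jn N K s v) ⊆ N := Finset.filter_subset _ _
  have hGd : ∀ x ∈ N, x ∈ N.filter (Jn N K s v) ↔ Jn N K s v x := fun x hx => by
    rw [Finset.mem_filter]
    exact ⟨fun h => h.2, fun h => ⟨hx, h⟩⟩
  generalize N.filter (Jn N K s v) = G at hGN hGd
  have hG := ZDec_poly h hGN
  have hvG : v ∈ G := (hGd v hvN).2 (jn_self s v)
  have hsG : s ∈ G := (hGd s hs).2 (jn_left s v)
  obtain ⟨u, hu1, hu2, hu3⟩ : ∃ u, Adj G K u s ∧ 0 < f u ∧ Relation.ReflTransGen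
      (fun p q => Adj G K p q ∧ 0 < f p ∧ 0 < f q ∧ p ≠ s ∧ q ≠ s) v u := by
    rcases hfs.eq_or_lt with h0 | h0
    · obtain ⟨u, hu1, hu2⟩ := pos_nb hG hsG hvG f hK h0.symm hfv
      have hadj := mem_nb.1 hu1
      refine ⟨u, adj_symm hadj, hu2, ?_⟩
      have hc := conn hG f hK hvG hadj.2.1 hfv hu2
      refine Relation.ReflTransGen.mono (fun p q hpq => ?_) _ _ hc
      refine ⟨hpq.1, hpq.2.1, hpq.2.2, fun hp => ?_, fun hq => ?_⟩
      · rw [hp] at hpq
        exact hpq.2.1.ne h0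
      · rw [hq] at hpq
        exact hpq.2.2.ne h0
    · exact ZDec_last f (conn hG f hK hvG hsG hfv h0) hvs
  have hpath : ∀ q, Relation.ReflTransGen
      (fun p q => Adj G K p q ∧ 0 < f p ∧ 0 < f q ∧ p ≠ s ∧ q ≠ s) v q →
      Relation.ReflTransGen (fun p q => Dec N K s p q ∧ 0 < f p ∧ 0 < f q) v q := by
    intro q hq
    induction hq with
    | refl => exact Relation.ReflTransGen.refl
    | tail _ h2 ih =>
      obtain ⟨a1, a2, a3, a4, a5⟩ := h2
      refine ih.tail ⟨⟨ZDec_adj hGN hGd a1, a4, a5, ?_⟩, a2, a3⟩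
      have hqG := a1.2.1
      exact hstar _ ih _ (hGN hqG) ((hGd _ (hGN hqG)).1 hqG)
  exact ⟨u, mem_nb.2 (adj_symm (ZDec_adj hGN hGd hu1)), hu2, hwv.trans (hpath u hu3)⟩

end Pool.Agent.LPG
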