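import Pool.Agent.LPZ.ZDec
import Pool.Agent.LPG.Farkas

/-!
# The projection from `s - η τ` (module ZEta)

`exists_eta`: `τ ∈ N`, `τ ≠ s`.
(1) For `y ∈ N`, `y ≠ s`, `¬ Jn N K s y τ` there are `h ≥ 0` on `N`, zero on `K`, `h s = 0`, `h y = 0`, `h τ ≠ 0`, so `h τ > 0`; and
`e` which exposes `y`: `e y = 0`, `e > 0` on `N \ {y}`, so `e s > 0`.  If `0 < η` and `η * e τ ≤ e s` put
`c = (e s - η * e τ) / (η * h τ) ≥ 0`, `g = e + c • h`: `g (s - η τ) = e s - η e τ - c η h τ = 0`, `g y = 0`, `g ≥ e > 0` on `N \ {y}`.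
(`e τ ≥ 0`, so a bound for `η` exists.)
(2) For `w ∈ N`, `w ≠ s`, `Jn N K s w τ`: `farkasK K (insert s... )`: every functional which vanishes on `K`, is `≥ 0` on `N` and on
`-s`, `-w` satisfies `f τ = 0`, so `f (-τ) ≥ 0`; by `farkasK` (for the finite set `N ∪ {-s, -w}`) `-τ` is modulo `K` a nonnegative
combination of `N`, `-s`, `-w`; so there is `C ≥ 0` with `g τ ≤ C * g s` for every `g ≥ 0` on `N` with `g w = 0`, zero on `K`.
If `g (s - η τ) = 0` then `g s = η g τ ≤ η C g s`, so `g s = 0` if `η C < 1` (`g s ≥ 0`).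
(3) `e+ > 0` on `N`, `e_s` exposes `s`: `e+ (s - η τ) = e+ s - η e+ τ > 0` for small `η`, `e_s (s - η τ) = - η e_s τ < 0`;
`g = e+ + c • e_s` with the right `c > 0`.
`N` is finite: take the minimum of the finitely many bounds for `η` (e.g. induction over `N`, or
`Finset.exists_...`, or a filter argument: each statement holds for all `η` in `(0, η_y)`).

`zone_all`: closed under `Dec` is clear; span: by `gen` at `y` every `v ∈ N` is in the span of `K`, `y` and the neighbours of `y`; all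
neighbours different from `s` are in `Λ` by hypothesis and `s ∈ Λ`; take `z = 0`.

`zone_KZ`: closed under `Dec`: `jn_trans`.  Span: let `y ∈ KZ`, `Λ` as in the hypothesis, `z = s - η τ` from `exists_eta`.
Suppose some `v ∈ N` is not in `Λ ⊔ span {z}`; let `f` vanish on `Λ` and at `z`, `f v > 0`.  Let `g` be the functional of (1) for `y`.
Let `w0 ∈ N` with `f w0 > 0` be such that `g w / f w` is minimal among the `w ∈ N` with `f w > 0`, `λ = g w0 / f w0 > 0` (`w0 ≠ y` since `f y = 0`).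
`g' = g - λ f ≥ 0` on `N`, zero on `K`, at `z`, `y`, `w0`; every `x ∈ N`, `x ≠ y`, with `g' x = 0` has `f x > 0`; `g' s = g s > 0`.
`y` has a neighbour `w` (in `N`) with `g' w = 0` (apply `pos_nb`/`gen` at `y`: `w0` is a nonnegative combination of the neighbours of `y`
modulo `K + ℝ y`, `g' w0 = 0` and `g' ≥ 0`, so `g'` vanishes at all neighbours with positive coefficient, and `f w0 > 0 = f y` shows that one of
them has `f w > 0`).  `w ≠ s`.  If `w ∈ KZ` then `w ∈ Λ`, so `f w = 0`, contradiction.  So `Jn N K s w τ`, and (2) for `g'` gives `g' s = 0`,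
contradiction.
-/

set_option autoImplicit false

namespace Pool.Agent.LPG

variable {W : Type*} [AddCommGroup W] [Module ℝ W] {N : Finset W} {K : Submodule ℝ W}

omit [AddCommGroup W] [Module ℝ W] in
/-- finitely many conditions which hold for all small `η` -/
private theorem ZEta_small (N : Finset W) (P : W → ℝ → Prop)
    (h : ∀ y ∈ N, ∃ η : ℝ, 0 < η ∧ ∀ η', 0 < η' → η' ≤ η → P y η') :
    ∃ η : ℝ, 0 < η ∧ ∀ η', 0 < η' → η' ≤ η → ∀ y ∈ N, P y η' := by
  classical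
  induction N using Finset.induction_on with
  | empty => exact ⟨1, one_pos, fun _ _ _ y hy => absurd hy (Finset.notMem_empty y)⟩
  | insert a S ha ih =>
    obtain ⟨η1, h1, h2⟩ := ih fun y hy => h y (Finset.mem_insert_of_mem hy)
    obtain ⟨η2, h3, h4⟩ := h a (Finset.mem_insert_self a S)
    refine ⟨min η1 η2, lt_min h1 h3, fun η' hp hle y hy => ?_⟩
    rcases Finset.mem_insert.1 hy with rfl | hy
    · exact h4 η' hp (hle.trans (min_le_right _ _))
    · exact h2 η' hp (hle.trans (min_le_left _ _)) y hy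

private theorem ZEta_app (g : W →ₗ[ℝ] ℝ) (s τ : W) (η : ℝ) :
    g (s - η • τ) = g s - η * g τ := by
  rw [map_sub, map_smul, smul_eq_mul]

private theorem ZEta_one (h : Poly N K) {s τ y : W} (hs : s ∈ N) (hτ : τ ∈ N) (hy : y ∈ N)
    (hys : y ≠ s) (hJ : ¬ Jn N K s y τ) : ∃ η : ℝ, 0 < η ∧ ∀ η', 0 < η' → η' ≤ η →
      ∃ g : W →ₗ[ℝ] ℝ, (∀ z ∈ K, g z = 0) ∧
        g (s - η' • τ) = 0 ∧ g y = 0 ∧ ∀ v ∈ N, v ≠ y → 0 < g v := by
  unfold Jn at hJ
  push Not at hJ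
  obtain ⟨k, k1, k2, k3, k4, k5⟩ := hJ
  have k6 : 0 < k τ := lt_of_le_of_ne (k2 τ hτ) (Ne.symm k5)
  obtain ⟨e, e1, e2, e3⟩ := h.1 y hy
  have e4 : 0 < e s := e3 s hs hys.symm
  have hyτ : τ ≠ y := by
    rintro rfl
    exact k5 k4
  have e5 : 0 < e τ := e3 τ hτ hyτ
  refine ⟨e s / e τ, div_pos e4 e5, fun η hη hle => ?_⟩
  have e6 : η * e τ ≤ e s := by
    rwa [le_div_iff₀ e5] at hle
  have hne : η * k τ ≠ 0 := (mul_pos hη k6).ne'
  have hc : 0 ≤ (e s - η * e τ) / (η * k τ) :=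
    div_nonneg (sub_nonneg.2 e6) (mul_pos hη k6).le
  refine ⟨e + ((e s - η * e τ) / (η * k τ)) • k, ?_, ?_, ?_, ?_⟩
  · intro z hz
    rw [LinearMap.add_apply, LinearMap.smul_apply, e1 z hz, k1 z hz, smul_zero, add_zero]
  · rw [ZEta_app]
    simp only [LinearMap.add_apply, LinearMap.smul_apply, smul_eq_mul, k3]
    field_simp
    ring
  · rw [LinearMap.add_apply, LinearMap.smul_apply, e2, k4, smul_zero, add_zero]
  · intro v hv hvy
    rw [LinearMap.add_apply, LinearMap.smul_apply, smul_eq_mul]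
    have := mul_nonneg hc (k2 v hv)
    have := e3 v hv hvy
    linarith

private theorem ZEta_two {s τ w : W} (hs : s ∈ N) (hw : w ∈ N) (hJ : Jn N K s w τ) :
    ∃ η : ℝ, 0 < η ∧ ∀ η', 0 < η' → η' ≤ η → ∀ g : W →ₗ[ℝ] ℝ, (∀ z ∈ K, g z = 0) →
        (∀ v ∈ N, 0 ≤ g v) → g (s - η' • τ) = 0 → g w = 0 → g s = 0 := by
  classical
  obtain ⟨c, hc, hcK⟩ := farkasK K (insert (-s) (insert (-w) N)) (-τ) (by
    intro f hK hf
    have h1 : f s = 0 := by
      have h2 := hf (-s) (Finset.mem_insert_self _ _)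
      have h3 := hf s (by simp [hs])
      rw [map_neg] at h2
      linarith
    have hN : ∀ y ∈ N, 0 ≤ f y := fun y hy => hf y (by simp [hy])
    have h4 : f w = 0 := by
      have h2 := hf (-w) (by simp)
      have h3 := hN w hw
      rw [map_neg] at h2
      linarith
    rw [map_neg, hJ f hK hN h1 h4, neg_zero])
  have hC : 0 ≤ c (-s) := hc _ (Finset.mem_insert_self _ _)
  refine ⟨1 / (c (-s) + 1), by positivity, fun η hη hle g hK hg hz hgw => ?_⟩
  have h1 := hK _ hcK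
  rw [map_sub, map_sum, map_neg] at h1
  simp only [map_smul, smul_eq_mul] at h1
  rw [← Finset.add_sum_erase _ _ (Finset.mem_insert_self (-s) _)] at h1
  have h2 : 0 ≤ ∑ v ∈ (insert (-s) (insert (-w) N)).erase (-s), c v * g v := by
    refine Finset.sum_nonneg fun v hv => ?_
    have hv2 := Finset.mem_of_mem_erase hv
    refine mul_nonneg (hc v hv2) ?_
    rcases Finset.mem_insert.1 hv2 with h3 | h3
    · exact absurd h3 (Finset.ne_of_mem_erase hv)
    · rcases Finset.mem_insert.1 h3 with h4 | h4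
      · rw [h4, map_neg, hgw, neg_zero]
      · exact hg v h4
  rw [map_neg] at h1
  rw [ZEta_app] at hz
  have h3 : g τ ≤ c (-s) * g s := by linarith
  have h4 : η * (c (-s) + 1) ≤ 1 := by
    rwa [le_div_iff₀ (by positivity)] at hle
  have h5 := hg s hs
  have h6 : g s ≤ η * (c (-s) * g s) := by
    have := mul_le_mul_of_nonneg_left h3 hη.le
    linarith
  nlinarith [mul_nonneg hη.le h5]

/-- the properties of the projection from `s - η τ` -/
theorem exists_eta (h : Poly N K) {s τ : W} (hs : s ∈ N) (hτ : τ ∈ N) (hτs : τ ≠ s) :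
    ∃ η : ℝ, 0 < η ∧
      (∀ y ∈ N, y ≠ s → ¬ Jn N K s y τ → ∃ g : W →ₗ[ℝ] ℝ, (∀ z ∈ K, g z = 0) ∧
        g (s - η • τ) = 0 ∧ g y = 0 ∧ ∀ v ∈ N, v ≠ y → 0 < g v) ∧
      (∀ w ∈ N, w ≠ s → Jn N K s w τ → ∀ g : W →ₗ[ℝ] ℝ, (∀ z ∈ K, g z = 0) →
        (∀ v ∈ N, 0 ≤ g v) → g (s - η • τ) = 0 → g w = 0 → g s = 0) ∧
      ∃ g : W →ₗ[ℝ] ℝ, (∀ z ∈ K, g z = 0) ∧ g (s - η • τ) = 0 ∧ ∀ v ∈ N, 0 < g v := by
  obtain ⟨η1, p1, q1⟩ := ZEta_small N
    (fun y η => y ≠ s → ¬ Jn N K s y τ → ∃ g : W →ₗ[ℝ] ℝ, (∀ z ∈ K, g z = 0) ∧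
        g (s - η • τ) = 0 ∧ g y = 0 ∧ ∀ v ∈ N, v ≠ y → 0 < g v) (by
    intro y hy
    by_cases hc : y ≠ s ∧ ¬ Jn N K s y τ
    · obtain ⟨η, h1, h2⟩ := ZEta_one h hs hτ hy hc.1 hc.2
      exact ⟨η, h1, fun η' h3 h4 _ _ => h2 η' h3 h4⟩
    · exact ⟨1, one_pos, fun η' _ _ h3 h4 => absurd ⟨h3, h4⟩ hc⟩)
  obtain ⟨η2, p2, q2⟩ := ZEta_small N
    (fun w η => w ≠ s → Jn N K s w τ → ∀ g : W →ₗ[ℝ] ℝ, (∀ z ∈ K, g z = 0) →
        (∀ v ∈ N, 0 ≤ g v) → g (s - η • τ) = 0 → g w = 0 → g s = 0) (by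
    intro w hw
    by_cases hc : w ≠ s ∧ Jn N K s w τ
    · obtain ⟨η, h1, h2⟩ := ZEta_two hs hw hc.2
      exact ⟨η, h1, fun η' h3 h4 _ _ => h2 η' h3 h4⟩
    · exact ⟨1, one_pos, fun η' _ _ h3 h4 => absurd ⟨h3, h4⟩ hc⟩)
  obtain ⟨e, e1, e2⟩ := h.2
  obtain ⟨d, d1, d2, d3⟩ := h.1 s hs
  have e4 := e2 s hs
  have e5 := e2 τ hτ
  have d4 := d3 τ hτ hτs
  have p3 : 0 < e s / e τ := div_pos e4 e5
  refine ⟨min (min η1 η2) (e s / e τ), lt_min (lt_min p1 p2) p3, ?_, ?_, ?_⟩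
  · exact q1 _ (lt_min (lt_min p1 p2) p3) ((min_le_left _ _).trans (min_le_left _ _))
  · exact q2 _ (lt_min (lt_min p1 p2) p3) ((min_le_left _ _).trans (min_le_right _ _))
  · have hη : 0 < min (min η1 η2) (e s / e τ) := lt_min (lt_min p1 p2) p3
    have hle : min (min η1 η2) (e s / e τ) ≤ e s / e τ := min_le_right _ _
    generalize min (min η1 η2) (e s / e τ) = η at hη hle
    have e6 : η * e τ ≤ e s := by
      rwa [le_div_iff₀ e5] at hle
    have hc : 0 ≤ (e s - η * e τ) / (η * d τ) :=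
      div_nonneg (sub_nonneg.2 e6) (mul_pos hη d4).le
    have hne : η * d τ ≠ 0 := (mul_pos hη d4).ne'
    refine ⟨e + ((e s - η * e τ) / (η * d τ)) • d, ?_, ?_, ?_⟩
    · intro z hz
      rw [LinearMap.add_apply, LinearMap.smul_apply, e1 z hz, d1 z hz, smul_zero, add_zero]
    · rw [ZEta_app]
      simp only [LinearMap.add_apply, LinearMap.smul_apply, smul_eq_mul, d2]
      field_simp
      ring
    · intro v hv
      rw [LinearMap.add_apply, LinearMap.smul_apply, smul_eq_mul]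
      have h7 : 0 ≤ d v := by
        by_cases hvs : v = s
        · rw [hvs, d2]
        · exact (d3 v hv hvs).le
      have := mul_nonneg hc h7
      have := e2 v hv
      linarith

theorem zone_all (h : Poly N K) {s : W} : Zone N K s {v | v ∈ N ∧ v ≠ s} := by
  refine ⟨fun v hv => hv, fun v _ x hx => ⟨hx.1.2.1, hx.2.2.1⟩, ?_⟩
  intro y hy hyn Λ hK hs hyΛ hΛ
  refine ⟨0, fun v hv => ?_⟩
  apply Submodule.mem_sup_left
  by_cases hvy : v = y
  · rw [hvy]
    exact hyΛ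
  · obtain ⟨c, hc, hcv⟩ := gen h hy.1 hv hvy
    have h1 : ad K y ≤ Λ := by
      intro z hz
      obtain ⟨a, ha⟩ := mem_ad.1 hz
      have := Λ.add_mem (hK ha) (Λ.smul_mem a hyΛ)
      rwa [sub_add_cancel] at this
    have h2 : ∑ u ∈ nb N K y, c u • u ∈ Λ := by
      refine Submodule.sum_mem _ fun u hu => Λ.smul_mem _ ?_
      have hadj := mem_nb.1 hu
      refine hΛ u ⟨hadj.2.1, ?_⟩ hadj
      rintro rfl
      exact hyn (mem_nb.2 (adj_symm hadj))
    have := Λ.add_mem (h1 hcv) h2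
    rwa [sub_add_cancel] at this

private theorem ZEta_exists_fun (U : Submodule ℝ W) {x : W} (hx : x ∉ U) :
    ∃ φ : W →ₗ[ℝ] ℝ, (∀ z ∈ U, φ z = 0) ∧ 0 < φ x := by
  obtain ⟨f, hf, hU⟩ := Submodule.exists_le_ker_of_notMem hx
  have hU' : ∀ z ∈ U, f z = 0 := fun z hz => LinearMap.mem_ker.1 (hU hz)
  rcases lt_or_gt_of_ne hf with h1 | h1
  · exact ⟨-f, fun z hz => by simp [hU' z hz], by simpa using h1⟩
  · exact ⟨f, hU', h1⟩

theorem zone_KZ (h : Poly N K) {s τ : W} (hs : s ∈ N) (hτ : τ ∈ N) (hτs : τ ≠ s) :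
    Zone N K s (KZ N K s τ) := by
  classical
  refine ⟨fun v hv => ⟨hv.1, hv.2.1⟩, fun v hv x hx =>
    ⟨hx.1.2.1, hx.2.2.1, fun hj => hv.2.2 (jn_trans hx.2.2.2 hj)⟩, ?_⟩
  intro y hy _ Λ hK hsΛ hyΛ hΛ
  obtain ⟨η, _, h1, h2, _⟩ := exists_eta h hs hτ hτs
  refine ⟨s - η • τ, ?_⟩
  by_contra hno
  push Not at hno
  obtain ⟨v, hv, hvΛ⟩ := hno
  obtain ⟨f, hf, hfv⟩ := ZEta_exists_fun _ hvΛ
  have hfΛ : ∀ z ∈ Λ, f z = 0 := fun z hz => hf z (Submodule.mem_sup_left hz)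
  have hfz : f (s - η • τ) = 0 :=
    hf _ (Submodule.mem_sup_right (Submodule.mem_span_singleton_self _))
  obtain ⟨g, g1, g2, g3, g4⟩ := h1 y hy.1 hy.2.1 hy.2.2
  have hne : (N.filter fun w => 0 < f w).Nonempty := ⟨v, Finset.mem_filter.2 ⟨hv, hfv⟩⟩
  obtain ⟨w0, hw0, hmin⟩ := Finset.exists_min_image (N.filter fun w => 0 < f w)
    (fun w => g w / f w) hne
  rw [Finset.mem_filter] at hw0
  have hw0y : w0 ≠ y := by
    rintro rfl
    have := hfΛ _ hyΛ
    linarith [hw0.2]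
  have hgw0 : 0 < g w0 := g4 w0 hw0.1 hw0y
  set l := g w0 / f w0 with hl
  have hlpos : 0 < l := div_pos hgw0 hw0.2
  obtain ⟨g', hg'⟩ : ∃ g' : W →ₗ[ℝ] ℝ, ∀ x, g' x = g x - l * f x :=
    ⟨g - l • f, fun x => by rw [LinearMap.sub_apply, LinearMap.smul_apply, smul_eq_mul]⟩
  have hg'N : ∀ x ∈ N, 0 ≤ g' x := by
    intro x hx
    rw [hg']
    have hgx : 0 ≤ g x := by
      by_cases hxy : x = y
      · rw [hxy, g3]
      · exact (g4 x hx hxy).le
    by_cases hfx : 0 < f x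
    · have := hmin x (Finset.mem_filter.2 ⟨hx, hfx⟩)
      rw [le_div_iff₀ hfx] at this
      linarith
    · push Not at hfx
      nlinarith
  have hg'K : ∀ z ∈ K, g' z = 0 := fun z hz => by
    rw [hg', g1 z hz, hfΛ z (hK hz)]
    ring
  have hg'z : g' (s - η • τ) = 0 := by
    rw [hg', g2, hfz]
    ring
  have hg'y : g' y = 0 := by
    rw [hg', g3, hfΛ y hyΛ]
    ring
  have hg'w0 : g' w0 = 0 := by
    rw [hg', hl, div_mul_cancel₀ _ hw0.2.ne', sub_self]
  have hg's : 0 < g' s := by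
    rw [hg', hfΛ s hsΛ]
    have := g4 s hs hy.2.1.symm
    linarith
  -- a neighbour of `y` at which `g'` vanishes
  obtain ⟨c, hc, hcw⟩ := gen h hy.1 hw0.1 hw0y
  have e1 := vanish_ad hg'K hg'y _ hcw
  rw [map_sub, map_sum, hg'w0] at e1
  simp only [map_smul, smul_eq_mul] at e1
  have e2 : ∀ u ∈ nb N K y, c u * g' u = 0 := by
    have h3 : ∑ u ∈ nb N K y, c u * g' u = 0 := by linarith
    exact (Finset.sum_eq_zero_iff_of_nonneg fun u hu =>
      mul_nonneg (hc u hu) (hg'N u (mem_nb.1 hu).2.1)).1 h3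
  have e3 := vanish_ad (fun z hz => hfΛ z (hK hz)) (hfΛ y hyΛ) _ hcw
  rw [map_sub, map_sum] at e3
  simp only [map_smul, smul_eq_mul] at e3
  have e4 : ∃ u ∈ nb N K y, 0 < c u * f u := by
    by_contra hno
    push Not at hno
    have := Finset.sum_nonpos hno
    linarith [hw0.2]
  obtain ⟨u, hu, hcu⟩ := e4
  have hcu0 : 0 < c u := by
    rcases (hc u hu).eq_or_lt with h3 | h3
    · rw [← h3, zero_mul] at hcu
      exact absurd hcu (lt_irrefl _)
    · exact h3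
  have hfu : 0 < f u := by
    by_contra hno
    push Not at hno
    nlinarith
  have hg'u : g' u = 0 := by
    rcases mul_eq_zero.1 (e2 u hu) with h3 | h3
    · exact absurd h3 hcu0.ne'
    · exact h3
  have hadj := mem_nb.1 hu
  have hus : u ≠ s := by
    rintro rfl
    have := hfΛ _ hsΛ
    linarith
  by_cases huK : u ∈ KZ N K s τ
  · have := hfΛ u (hΛ u huK hadj)
    linarith
  · have hJ : Jn N K s u τ := by
      by_contra hJ
      exact huK ⟨hadj.2.1, hus, hJ⟩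
    have := h2 u hadj.2.1 hus hJ g' hg'K hg'N hg'z hg'u
    linarith

end Pool.Agent.LPG
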