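import Pool.Agent.LPZ.ZDec
import Pool.Agent.LPG.RkLin
import Pool.Agent.LPG.RkOps

/-!
# One stage of the routing: directed matroid Menger (module ZMen)

`U` a zone, `T ⊆ U` the targets, `B` the fixed places, `Y` the sources (in `U`, not in `T`, not in `B`), all neighbours of `s` in `U` are in `T` or `B`.
Digraph `E` (pairs in `N ×ˢ N`): `v → w` with `Adj N K v w`, `v ∈ U`, `v ∉ T`, `v ∉ B`, `w ∈ U`, `w ∉ B`, and (`Jn N K s v w` or (`v ∈ Y` and `v ≠ τ`)).
Targets `Tf = N.filter (· ∈ T ∧ · ∉ B)`, rank `rkl Λ0 Tf`, `Λ0 = K ⊔ span (insert s B)`.  Apply `mr` with `A = Y`, `k = Y.card`.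
Hypothesis of `mr`: let `C`, `F` with: everything reachable from `Y` avoiding `C` is in `F`, and suppose `C.card + r F < Y.card`.
`exists_basis` gives `I ⊆ F`, `r I = I.card = r F`; replace `I` by `I ∩ Tf` (`rkl` only sees the part in `Tf`); then `F ∩ Tf ⊆ Λ0 ⊔ span I` (adding an element of
`F` does not increase the rank).  `Λ = K ⊔ span D`, `D = insert s (B ∪ C ∪ I)`, `D.card ≤ 1 + B.card + (Y.card - 1) ≤ n - 2`.
(W) Claim: if `w ∈ U`, `w ∉ T`, `w ∉ B`, `w ∉ C` and `f` vanishes on `K`, `s`, `B`, `C` with `f w > 0`, then some `t' ∈ T`, `t' ∉ B`, with `f t' > 0` is reachable from `w` by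
arcs of `E` avoiding `C`: follow the walk of `dec_path` from `w` (in `{f > 0}`, so it avoids `s`, `B`, `C`; it stays in `U` by `Zone.dec`) to its first vertex
in `T`; its end is in `nb N K s`, so in `T` (not in `B` because `f > 0`).
Case 1: there is `y ∈ Y`, `y ∉ C`, `y ≠ τ`.  All `w ∈ U` with `w = y` or `Adj N K y w` are in `Λ`: otherwise take `f` zero on `Λ`, `f w > 0`; `w ∉ B, C`.  If `w ∈ T` then `y → w` is an arc,
`w ∈ F ∩ Tf ⊆ Λ`.  If `w ∉ T`, (W) gives `t' ∈ F ∩ Tf ⊆ Λ` with `f t' > 0`.  Contradiction.  By `Zone.span` (`y ∉ nb N K s` since it is in neither `T` nor `B`) `N ⊆ Λ ⊔ span {z}`, contradiction to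
`DimGe N K n`, since `(insert z D).card ≤ n - 1`.
Case 2: otherwise `Y.erase τ ⊆ C`; as `C.card < Y.card`, `τ ∈ Y`, `C = Y.erase τ`, `τ ∉ C` and `r F = 0`.  `f` from `hτ` (zero on `K`, `s`, `B`, `Y \ {τ}`) and (W) with `w = τ` give
`t' ∈ F ∩ Tf`, `f t' > 0`, so `t' ∉ Λ0` (`f` vanishes on `Λ0`) and `r F ≥ 1`, contradiction.
Output: `PathSys` is indexed by `Fin Y.card`, the starts are different elements of `Y`: reindex by `Y` (as in `kl`).  `indep_of_rkl`: all ends are in `Tf` and linearly independent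
modulo `Λ0`.  A vertex `v ≠ e x` of `S x` has an outgoing arc, so `v ∉ T`, `v ∉ B`.  All arcs of the path of `τ` are decreasing (a vertex of `Y` other than `τ` lies on its
own path), so `Jn N K s τ v` for all its vertices (`jn_trans`).
`indep1`: `e y ∉ Λ0 ⊔ span {e y' | y' ∈ Y, y' ≠ y}`.  `indep2`: if `c ∈ Λ1 ⊔ span (e '' Y)`, `Λ1 = K ⊔ span (insert s (B \ {c}))`, `c = a + b`, then `b ∈ Λ0`, so `b = 0` by independence.
-/

set_option autoImplicit false

namespace Pool.Agent.LPG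

variable {W : Type*} [AddCommGroup W] [Module ℝ W] {N : Finset W} {K : Submodule ℝ W}

/-- the output of one stage -/
structure MenOut (N : Finset W) (K : Submodule ℝ W) (s : W) (U T : Set W) (B Y : Finset W) (τ : W)
    (S : W → Finset W) (e : W → W) : Prop where
  disj : ∀ x ∈ Y, ∀ y ∈ Y, x ≠ y → Disjoint (S x) (S y)
  mem : ∀ x ∈ Y, x ∈ S x ∧ e x ∈ S x ∧ e x ∈ T ∧ e x ∉ B
  sub : ∀ x ∈ Y, ∀ v ∈ S x, v ∈ U ∧ v ∉ B ∧ (v ≠ e x → v ∉ T)
  conn : ∀ x ∈ Y, ∀ v ∈ S x,
    Relation.ReflTransGen (fun p q => Adj N K p q ∧ p ∈ S x ∧ q ∈ S x) x v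
  dec : τ ∈ Y → ∀ v ∈ S τ, Jn N K s τ v
  indep1 : ∀ y ∈ Y, e y ∉ K ⊔ Submodule.span ℝ (insert s ((B : Set W) ∪ e '' ((Y : Set W) \ {y})))
  indep2 : ∀ c ∈ B, c ∉ K ⊔ Submodule.span ℝ (insert s ((B : Set W) \ {c})) →
    c ∉ K ⊔ Submodule.span ℝ (insert s (((B : Set W) \ {c}) ∪ e '' (Y : Set W)))

/-- the arcs of one stage -/
private def ZMen_arc (N : Finset W) (K : Submodule ℝ W) (s : W) (U T : Set W) (B Y : Finset W)
    (τ : W) (v w : W) : Prop :=
  Adj N K v w ∧ v ∈ U ∧ v ∉ T ∧ v ∉ B ∧ w ∈ U ∧ w ∉ B ∧ (Jn N K s v w ∨ (v ∈ Y ∧ v ≠ τ))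

private theorem ZMen_exists_fun (Λ : Submodule ℝ W) {x : W} (hx : x ∉ Λ) :
    ∃ φ : W →ₗ[ℝ] ℝ, (∀ z ∈ Λ, φ z = 0) ∧ 0 < φ x := by
  obtain ⟨f, hf, hU⟩ := Submodule.exists_le_ker_of_notMem hx
  have hU' : ∀ z ∈ Λ, f z = 0 := fun z hz => LinearMap.mem_ker.1 (hU hz)
  rcases lt_or_gt_of_ne hf with h1 | h1
  · exact ⟨-f, fun z hz => by simp [hU' z hz], by simpa using h1⟩
  · exact ⟨f, hU', h1⟩

/-- (W) -/
private theorem ZMen_walk (h : Poly N K) {s : W} (hs : s ∈ N) {U T : Set W} {B Y : Finset W}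
    (hU : Zone N K s U) (hN : ∀ v ∈ U, v ∈ nb N K s → v ∈ T ∨ v ∈ B) {τ : W} (C : Finset W)
    {w : W} (hw : w ∈ U) (f : W →ₗ[ℝ] ℝ) (hK : ∀ z ∈ K, f z = 0) (hfs : f s = 0)
    (hfB : ∀ v ∈ B, f v = 0) (hfC : ∀ v ∈ C, f v = 0) (hfw : 0 < f w) :
    ∃ t ∈ T, t ∉ B ∧ 0 < f t ∧
      Relation.ReflTransGen (fun p q => ZMen_arc N K s U T B Y τ p q ∧ q ∉ C) w t := by
  obtain ⟨u, hu, hfu, hwalk⟩ := dec_path h hs (hU.sub w hw).1 (hU.sub w hw).2 f hK hfs.ge hfw
  have hBp : ∀ q, 0 < f q → q ∉ B := fun q hq hqB => by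
    rw [hfB q hqB] at hq
    exact lt_irrefl _ hq
  have hCp : ∀ q, 0 < f q → q ∉ C := fun q hq hqC => by
    rw [hfC q hqC] at hq
    exact lt_irrefl _ hq
  induction hwalk using Relation.ReflTransGen.head_induction_on with
  | refl =>
    rcases hN u hw hu with h1 | h1
    · exact ⟨u, h1, hBp u hfu, hfu, Relation.ReflTransGen.refl⟩
    · exact absurd h1 (hBp u hfu)
  | head hac hcs ih =>
    rename_i p q
    by_cases hpT : p ∈ T
    · exact ⟨p, hpT, hBp p hfw, hfw, Relation.ReflTransGen.refl⟩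
    · obtain ⟨hd, hfp, hfq⟩ := hac
      have hqU : q ∈ U := hU.dec p hw q hd
      obtain ⟨t, ht1, ht2, ht3, ht4⟩ := ih hqU hfq
      refine ⟨t, ht1, ht2, ht3, Relation.ReflTransGen.head ⟨?_, hCp q hfq⟩ ht4⟩
      exact ⟨hd.1, hw, hpT, hBp p hfp, hqU, hBp q hfq, Or.inl hd.2.2.2⟩

/-- elements of `F` in the range of the rank function are in the span of a basis -/
private theorem ZMen_span [DecidableEq W] (Λ0 : Submodule ℝ W) (Tf F I : Finset W)
    (hIF : I ⊆ F) (hI : rkl Λ0 Tf I = rkl Λ0 Tf F) {v : W} (hvF : v ∈ F) (hvT : v ∈ Tf) :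
    v ∈ Λ0 ⊔ Submodule.span ℝ (I : Set W) := by
  have hr := isRk_rkl Λ0 Tf
  have h1 : rkl Λ0 Tf (insert v I) = rkl Λ0 Tf I := by
    refine le_antisymm ?_ (hr.mono _ _ (Finset.subset_insert v I))
    rw [hI]
    exact hr.mono _ _ (Finset.insert_subset hvF hIF)
  unfold rkl at h1
  have hfd : FiniteDimensional ℝ
      (Submodule.span ℝ (Λ0.mkQ '' ((insert v I ∩ Tf : Finset W) : Set W))) :=
    FiniteDimensional.span_of_finite ℝ ((insert v I ∩ Tf).finite_toSet.image _)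
  have hle : Submodule.span ℝ (Λ0.mkQ '' ((I ∩ Tf : Finset W) : Set W)) ≤
      Submodule.span ℝ (Λ0.mkQ '' ((insert v I ∩ Tf : Finset W) : Set W)) := by
    refine Submodule.span_mono (Set.image_mono ?_)
    exact_mod_cast Finset.inter_subset_inter_right (Finset.subset_insert v I)
  have heq := Submodule.eq_of_le_of_finrank_eq hle h1.symm
  have hv : Λ0.mkQ v ∈ Submodule.span ℝ (Λ0.mkQ '' ((I ∩ Tf : Finset W) : Set W)) := by
    rw [heq]
    refine Submodule.subset_span ⟨v, ?_, rfl⟩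
    exact Finset.mem_coe.2 (Finset.mem_inter.2 ⟨Finset.mem_insert_self _ _, hvT⟩)
  rw [← Submodule.map_span] at hv
  obtain ⟨y, hy, hyv⟩ := hv
  have h2 : v - y ∈ Λ0 := by
    rw [Submodule.mkQ_apply, Submodule.mkQ_apply, Submodule.Quotient.eq] at hyv
    have := Λ0.neg_mem hyv
    simpa using this
  have h3 : v = (v - y) + y := by abel
  rw [h3]
  have h4 : y ∈ Submodule.span ℝ (I : Set W) := by
    refine Submodule.span_mono ?_ hy
    exact_mod_cast Finset.inter_subset_left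
  exact Submodule.add_mem _ ((le_sup_left : Λ0 ≤ _) h2) ((le_sup_right : _ ≤ Λ0 ⊔ _) h4)

theorem men (h : Poly N K) {s : W} (hs : s ∈ N) {n : ℕ} (hn : DimGe N K n) {U T : Set W}
    {B Y : Finset W} (hU : Zone N K s U) (hTU : T ⊆ U)
    (hN : ∀ v ∈ U, v ∈ nb N K s → v ∈ T ∨ v ∈ B)
    (hB : ∀ v ∈ B, v ∈ U) (hY : ∀ y ∈ Y, y ∈ U ∧ y ∉ T ∧ y ∉ B)
    (hc : Y.card + B.card + 2 ≤ n) {τ : W}
    (hτ : τ ∈ Y → ∃ f : W →ₗ[ℝ] ℝ, (∀ z ∈ K, f z = 0) ∧ f s = 0 ∧ (∀ v ∈ B, f v = 0) ∧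
      (∀ v ∈ Y, v ≠ τ → f v = 0) ∧ 0 < f τ) :
    ∃ (S : W → Finset W) (e : W → W), MenOut N K s U T B Y τ S e := by
  classical
  set E : Finset (W × W) := (N ×ˢ N).filter (fun p => ZMen_arc N K s U T B Y τ p.1 p.2) with hE
  have memE : ∀ u w : W, (u, w) ∈ E ↔ ZMen_arc N K s U T B Y τ u w := by
    intro u w
    rw [hE, Finset.mem_filter, Finset.mem_product]
    exact ⟨fun hh => hh.2, fun hh => ⟨⟨hh.1.1, hh.1.2.1⟩, hh⟩⟩
  set Tf : Finset W := N.filter (fun v => v ∈ T ∧ v ∉ B) with hTf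
  have memTf : ∀ v, v ∈ Tf ↔ v ∈ T ∧ v ∉ B := by
    intro v
    rw [hTf, Finset.mem_filter]
    exact ⟨fun hh => hh.2, fun hh => ⟨(hU.sub v (hTU hh.1)).1, hh⟩⟩
  set Λ0 : Submodule ℝ W := K ⊔ Submodule.span ℝ ((insert s B : Finset W) : Set W) with hΛ0
  have hKΛ0 : K ≤ Λ0 := le_sup_left
  have memΛ0 : ∀ w ∈ insert s B, w ∈ Λ0 := fun w hw =>
    (le_sup_right : _ ≤ Λ0) (Submodule.subset_span (Finset.mem_coe.2 hw))
  have vanΛ0 : ∀ f : W →ₗ[ℝ] ℝ, (∀ z ∈ K, f z = 0) → f s = 0 → (∀ v ∈ B, f v = 0) →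
      ∀ z ∈ Λ0, f z = 0 := by
    intro f h1 h2 h3 z hz
    have h4 : Λ0 ≤ LinearMap.ker f := by
      refine sup_le (fun z hz => LinearMap.mem_ker.2 (h1 z hz)) ?_
      rw [Submodule.span_le]
      intro w hw
      rw [Finset.mem_coe, Finset.mem_insert] at hw
      rcases hw with rfl | hw
      · exact LinearMap.mem_ker.2 h2
      · exact LinearMap.mem_ker.2 (h3 w hw)
    exact LinearMap.mem_ker.1 (h4 hz)
  have key := mr (rkl Λ0 Tf) (isRk_rkl Λ0 Tf) E Y Y.card (by
    intro C F hsep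
    by_contra hlt
    rw [not_le] at hlt
    obtain ⟨I, hIF, hI1, hI2⟩ := exists_basis (isRk_rkl Λ0 Tf) F
    have hspan : ∀ v ∈ F, v ∈ Tf → v ∈ Λ0 ⊔ Submodule.span ℝ (I : Set W) :=
      fun v hv hvT => ZMen_span Λ0 Tf F I hIF hI2 hv hvT
    have hconv : ∀ w t, Relation.ReflTransGen
        (fun p q => ZMen_arc N K s U T B Y τ p q ∧ q ∉ C) w t →
        Relation.ReflTransGen (fun p q => (p, q) ∈ E ∧ q ∉ C) w t := fun w t hh =>
      Relation.ReflTransGen.mono (fun p q hpq => ⟨(memE p q).2 hpq.1, hpq.2⟩) _ _ hh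
    by_cases hcase : ∃ y ∈ Y, y ∉ C ∧ y ≠ τ
    · obtain ⟨y, hyY, hyC, hyτ⟩ := hcase
      obtain ⟨hyU, hyT, hyB⟩ := hY y hyY
      set D : Finset W := insert s (B ∪ C ∪ I) with hD
      set Λ : Submodule ℝ W := K ⊔ Submodule.span ℝ (D : Set W) with hΛ
      have hKΛ : K ≤ Λ := le_sup_left
      have memΛ : ∀ w ∈ D, w ∈ Λ := fun w hw =>
        (le_sup_right : _ ≤ Λ) (Submodule.subset_span (Finset.mem_coe.2 hw))
      have hsΛ : s ∈ Λ := memΛ s (Finset.mem_insert_self _ _)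
      have hBΛ : ∀ v ∈ B, v ∈ Λ := fun v hv => memΛ v (Finset.mem_insert_of_mem
        (Finset.mem_union_left _ (Finset.mem_union_left _ hv)))
      have hCΛ : ∀ v ∈ C, v ∈ Λ := fun v hv => memΛ v (Finset.mem_insert_of_mem
        (Finset.mem_union_left _ (Finset.mem_union_right _ hv)))
      have hIΛ : ∀ v ∈ I, v ∈ Λ := fun v hv => memΛ v (Finset.mem_insert_of_mem
        (Finset.mem_union_right _ hv))
      have hle : Λ0 ⊔ Submodule.span ℝ (I : Set W) ≤ Λ := by
        refine sup_le (sup_le hKΛ ?_) ?_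
        · rw [Submodule.span_le]
          intro w hw
          rw [Finset.mem_coe, Finset.mem_insert] at hw
          rcases hw with rfl | hw
          · exact hsΛ
          · exact hBΛ w hw
        · rw [Submodule.span_le]
          intro w hw
          exact hIΛ w (Finset.mem_coe.1 hw)
      have hDcard : D.card ≤ 1 + B.card + C.card + I.card := by
        have h1 := Finset.card_insert_le s (B ∪ C ∪ I)
        have h2 := Finset.card_union_le (B ∪ C) I
        have h3 := Finset.card_union_le B C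
        rw [hD]
        omega
      have hall : ∀ w ∈ U, (w = y ∨ Adj N K y w) → w ∈ Λ := by
        intro w hwU hwy
        by_contra hwΛ
        obtain ⟨f, hfΛ, hfw⟩ := ZMen_exists_fun Λ hwΛ
        obtain ⟨t, ht1, ht2, ht3, ht4⟩ := ZMen_walk (Y := Y) (τ := τ) h hs hU hN C hwU f
          (fun z hz => hfΛ z (hKΛ hz)) (hfΛ s hsΛ) (fun v hv => hfΛ v (hBΛ v hv))
          (fun v hv => hfΛ v (hCΛ v hv)) hfw
        have hwB : w ∉ B := fun hh => by
          rw [hfΛ w (hBΛ w hh)] at hfw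
          exact lt_irrefl _ hfw
        have hwC : w ∉ C := fun hh => by
          rw [hfΛ w (hCΛ w hh)] at hfw
          exact lt_irrefl _ hfw
        have hav : Av E C y t := by
          refine ⟨hyC, ?_⟩
          rcases hwy with rfl | hadj
          · exact hconv _ _ ht4
          · refine Relation.ReflTransGen.head ⟨(memE y w).2 ?_, hwC⟩ (hconv _ _ ht4)
            exact ⟨hadj, hyU, hyT, hyB, hwU, hwB, Or.inr ⟨hyY, hyτ⟩⟩
        have htF := hsep y hyY t hav
        have htΛ := hle (hspan t htF ((memTf t).2 ⟨ht1, ht2⟩))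
        rw [hfΛ t htΛ] at ht3
        exact lt_irrefl _ ht3
      have hyn : y ∉ nb N K s := fun hh => by
        rcases hN y hyU hh with h1 | h1
        · exact hyT h1
        · exact hyB h1
      obtain ⟨z, hz⟩ := hU.span y hyU hyn Λ hKΛ hsΛ (hall y hyU (Or.inl rfl))
        (fun w hw hadj => hall w hw (Or.inr hadj))
      have hcard : (insert z D).card < n := by
        have h1 := Finset.card_insert_le z D
        omega
      obtain ⟨v, hvN, hv⟩ := hn _ hcard
      apply hv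
      have h1 : Λ ⊔ Submodule.span ℝ {z} ≤ K ⊔ Submodule.span ℝ ((insert z D : Finset W) : Set W) := by
        refine sup_le (sup_le le_sup_left ?_) ?_
        · refine le_sup_of_le_right (Submodule.span_mono ?_)
          exact_mod_cast Finset.subset_insert z D
        · refine le_sup_of_le_right (Submodule.span_mono ?_)
          rw [Set.singleton_subset_iff]
          exact Finset.mem_coe.2 (Finset.mem_insert_self _ _)
      exact h1 (hz v hvN)
    · push Not at hcase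
      have hsub : Y.erase τ ⊆ C := by
        intro y hy
        rw [Finset.mem_erase] at hy
        by_contra hyC
        exact hy.1 (hcase y hy.2 hyC)
      have hcle := Finset.card_le_card hsub
      have hτY : τ ∈ Y := by
        by_contra hno
        rw [Finset.erase_eq_of_notMem hno] at hcle
        omega
      rw [Finset.card_erase_of_mem hτY] at hcle
      have hpos : 0 < Y.card := Finset.card_pos.2 ⟨τ, hτY⟩
      have hCeq : Y.erase τ = C := by
        refine Finset.eq_of_subset_of_card_le hsub ?_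
        rw [Finset.card_erase_of_mem hτY]
        omega
      have hI0 : I.card = 0 := by omega
      rw [Finset.card_eq_zero] at hI0
      obtain ⟨f, f1, f2, f3, f4, f5⟩ := hτ hτY
      obtain ⟨hτU, hτT, hτB⟩ := hY τ hτY
      obtain ⟨t, ht1, ht2, ht3, ht4⟩ := ZMen_walk (Y := Y) (τ := τ) h hs hU hN C hτU f
          f1 f2 f3 (fun v hv => by
            rw [← hCeq, Finset.mem_erase] at hv
            exact f4 v hv.2 hv.1) f5
      have hτC : τ ∉ C := by
        rw [← hCeq]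
        exact Finset.notMem_erase τ Y
      have htF := hsep τ hτY t ⟨hτC, hconv _ _ ht4⟩
      have htΛ := hspan t htF ((memTf t).2 ⟨ht1, ht2⟩)
      rw [hI0, Finset.coe_empty, Submodule.span_empty, sup_bot_eq] at htΛ
      rw [vanΛ0 f f1 f2 f3 t htΛ] at ht3
      exact lt_irrefl _ ht3)
  obtain ⟨S', a, e', ⟨hdis, hPS⟩, hr⟩ := key
  obtain ⟨heT, hind⟩ := indep_of_rkl Λ0 Tf e' hr
  have hainj : Function.Injective a := by
    intro i j hij
    by_contra hne
    have h1 := (hPS i).2.1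
    have h2 := (hPS j).2.1
    rw [hij] at h1
    exact Finset.disjoint_left.1 (hdis i j hne) h1 h2
  have himg : Finset.univ.image a = Y := by
    refine Finset.eq_of_subset_of_card_le ?_ ?_
    · intro w hw
      obtain ⟨j, _, rfl⟩ := Finset.mem_image.1 hw
      exact (hPS j).1
    · rw [Finset.card_image_of_injective _ hainj, Finset.card_univ, Fintype.card_fin]
  have hsig : ∀ x ∈ Y, ∃ j : Fin Y.card, a j = x := by
    intro x hx
    rw [← himg] at hx
    obtain ⟨j, _, hj⟩ := Finset.mem_image.1 hx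
    exact ⟨j, hj⟩
  choose σ hσ using hsig
  have hσne : ∀ x (hx : x ∈ Y) y (hy : y ∈ Y), x ≠ y → σ x hx ≠ σ y hy := by
    intro x hx y hy hxy hh
    exact hxy (by rw [← hσ x hx, ← hσ y hy, hh])
  set S : W → Finset W := fun x => if hx : x ∈ Y then S' (σ x hx) else ∅ with hS
  set e : W → W := fun x => if hx : x ∈ Y then e' (σ x hx) else x with he
  have hSx : ∀ x (hx : x ∈ Y), S x = S' (σ x hx) := fun x hx => by
    rw [hS]
    simp only [hx, dif_pos]
  have hex : ∀ x (hx : x ∈ Y), e x = e' (σ x hx) := fun x hx => by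
    rw [he]
    simp only [hx, dif_pos]
  have hdisj : ∀ x ∈ Y, ∀ y ∈ Y, x ≠ y → Disjoint (S x) (S y) := by
    intro x hx y hy hxy
    rw [hSx x hx, hSx y hy]
    exact hdis _ _ (hσne x hx y hy hxy)
  have hmem : ∀ x ∈ Y, x ∈ S x ∧ e x ∈ S x ∧ e x ∈ T ∧ e x ∉ B := by
    intro x hx
    rw [hSx x hx, hex x hx]
    obtain ⟨_, h2, h3, h4⟩ := hPS (σ x hx)
    rw [hσ x hx] at h2
    exact ⟨h2, h3, (memTf _).1 (heT _)⟩
  refine ⟨S, e, hdisj, hmem, ?_, ?_, ?_, ?_, ?_⟩
  · intro x hx v hv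
    rw [hSx x hx] at hv
    rw [hex x hx]
    obtain ⟨_, _, _, h4⟩ := hPS (σ x hx)
    obtain ⟨h5, h6⟩ := h4 v hv
    have h7 : v ∈ U ∧ v ∉ B := by
      rcases Relation.ReflTransGen.cases_tail h5 with h7 | ⟨c, _, h8⟩
      · rw [h7, hσ x hx]
        exact ⟨(hY x hx).1, (hY x hx).2.2⟩
      · have := (memE _ _).1 h8.1
        exact ⟨this.2.2.2.2.1, this.2.2.2.2.2.1⟩
    refine ⟨h7.1, h7.2, fun hve => ?_⟩
    rcases Relation.ReflTransGen.cases_head h6 with h7 | ⟨c, h8, _⟩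
    · exact absurd h7 hve
    · exact ((memE _ _).1 h8.1).2.2.1
  · intro x hx v hv
    rw [hSx x hx] at hv ⊢
    obtain ⟨_, _, _, h4⟩ := hPS (σ x hx)
    obtain ⟨h5, _⟩ := h4 v hv
    rw [hσ x hx] at h5
    exact Relation.ReflTransGen.mono
      (fun p q hpq => ⟨((memE p q).1 hpq.1).1, hpq.2.1, hpq.2.2.1⟩) _ _ h5
  · intro hτY v hv
    have hv' := hv
    rw [hSx τ hτY] at hv'
    obtain ⟨_, _, _, h4⟩ := hPS (σ τ hτY)
    have h5 := (h4 v hv').1
    rw [hσ τ hτY] at h5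
    clear hv hv'
    induction h5 with
    | refl => exact jn_self s τ
    | @tail p q _ h2 ih =>
      obtain ⟨g1, g2, g3, g4⟩ := h2
      refine jn_trans ih ?_
      rcases ((memE _ _).1 g1).2.2.2.2.2.2 with h7 | ⟨h7, h8⟩
      · exact h7
      · exfalso
        have h9 := hdisj p h7 τ hτY h8
        rw [Finset.disjoint_left] at h9
        refine h9 (hmem p h7).1 ?_
        rw [hSx τ hτY]
        exact g2
  · intro y hy hcon
    have h1 : K ⊔ Submodule.span ℝ (insert s ((B : Set W) ∪ e '' ((Y : Set W) \ {y}))) ≤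
        Λ0 ⊔ Submodule.span ℝ (e' '' {j | j ≠ σ y hy}) := by
      refine sup_le (hKΛ0.trans le_sup_left) ?_
      rw [Submodule.span_le]
      intro w hw
      rw [Set.mem_insert_iff, Set.mem_union] at hw
      rcases hw with rfl | hw | ⟨x, hx, rfl⟩
      · exact (le_sup_left : Λ0 ≤ _) (memΛ0 _ (Finset.mem_insert_self _ _))
      · exact (le_sup_left : Λ0 ≤ _) (memΛ0 _ (Finset.mem_insert_of_mem hw))
      · refine (le_sup_right : _ ≤ Λ0 ⊔ _) (Submodule.subset_span ?_)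
        have hxY : x ∈ Y := hx.1
        rw [hex x hxY]
        exact ⟨σ x hxY, hσne x hxY y hy hx.2, rfl⟩
    have h2 := h1 hcon
    rw [hex y hy, Submodule.mem_sup] at h2
    obtain ⟨u, hu, b, hb, hub⟩ := h2
    have h3 : Λ0.mkQ (e' (σ y hy)) = Λ0.mkQ b := by
      rw [← hub, map_add, (Submodule.Quotient.mk_eq_zero Λ0).2 hu |> (fun h => (h : Λ0.mkQ u = 0)),
        zero_add]
    have h4 : Λ0.mkQ b ∈ Submodule.span ℝ
        ((fun i => Λ0.mkQ (e' i)) '' {j | j ≠ σ y hy}) := by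
      have h5 := Submodule.mem_map_of_mem (f := Λ0.mkQ) hb
      rw [Submodule.map_span, Set.image_image] at h5
      exact h5
    rw [← h3] at h4
    have hnot : σ y hy ∉ {j | j ≠ σ y hy} := fun hh => hh rfl
    exact hind.notMem_span_image hnot h4
  · intro c hcB hcn hcon
    have h1 : K ⊔ Submodule.span ℝ (insert s (((B : Set W) \ {c}) ∪ e '' (Y : Set W))) ≤
        (K ⊔ Submodule.span ℝ (insert s ((B : Set W) \ {c}))) ⊔
          Submodule.span ℝ (Set.range e') := by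
      refine sup_le (le_sup_left.trans le_sup_left) ?_
      rw [Submodule.span_le]
      intro w hw
      rw [Set.mem_insert_iff, Set.mem_union] at hw
      rcases hw with rfl | hw | ⟨x, hx, rfl⟩
      · refine (le_sup_left : _ ≤ _ ⊔ Submodule.span ℝ (Set.range e')) ?_
        exact (le_sup_right : _ ≤ K ⊔ _) (Submodule.subset_span (Set.mem_insert _ _))
      · refine (le_sup_left : _ ≤ _ ⊔ Submodule.span ℝ (Set.range e')) ?_
        exact (le_sup_right : _ ≤ K ⊔ _) (Submodule.subset_span (Set.mem_insert_of_mem _ hw))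
      · refine (le_sup_right : _ ≤ _ ⊔ Submodule.span ℝ (Set.range e')) (Submodule.subset_span ?_)
        have hxY : x ∈ Y := hx
        rw [hex x hxY]
        exact ⟨_, rfl⟩
    have h2 := h1 hcon
    rw [Submodule.mem_sup] at h2
    obtain ⟨u, hu, b, hb, hub⟩ := h2
    have huΛ : u ∈ Λ0 := by
      have h3 : K ⊔ Submodule.span ℝ (insert s ((B : Set W) \ {c})) ≤ Λ0 := by
        refine sup_le hKΛ0 ?_
        rw [Submodule.span_le]
        intro w hw
        rw [Set.mem_insert_iff] at hw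
        rcases hw with rfl | hw
        · exact memΛ0 _ (Finset.mem_insert_self _ _)
        · exact memΛ0 _ (Finset.mem_insert_of_mem hw.1)
      exact h3 hu
    have hbΛ : b ∈ Λ0 := by
      have h3 : b = c - u := by rw [← hub]; abel
      rw [h3]
      exact Λ0.sub_mem (memΛ0 c (Finset.mem_insert_of_mem hcB)) huΛ
    obtain ⟨g, hg⟩ := (Submodule.mem_span_range_iff_exists_fun ℝ).1 hb
    have h4 : ∑ i, g i • Λ0.mkQ (e' i) = 0 := by
      have h5 : Λ0.mkQ b = 0 := (Submodule.Quotient.mk_eq_zero Λ0).2 hbΛ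
      rw [← hg, map_sum] at h5
      simpa only [map_smul] using h5
    have h5 := Fintype.linearIndependent_iff.1 hind g h4
    have h6 : b = 0 := by
      rw [← hg]
      exact Finset.sum_eq_zero fun i _ => by rw [h5 i, zero_smul]
    apply hcn
    rw [h6, add_zero] at hub
    rw [hub] at hu
    exact hu

end Pool.Agent.LPG
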