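import Pool.Agent.LPZ.ZEta

/-!
# The polytope `R` of the zero-cost step (module ZRed)

`u` is a neighbour of `s`, `η` from `exists_eta` for `τ = u`, `z = s - η u`, `NR N K s u = KZ N K s u ∪ {u}`, `K' = ad K z`.
`Poly`: `w ∈ NR`, `w ≠ u`: functional (1) of `exists_eta`.  `u`: the functional which exposes the edge `s u` vanishes at `s`, `u`, so at `z`, and
is positive at all other elements of `N`.  Pointed: (3).
(A) If `f` vanishes on `K'` and `f ≥ 0` on `NR` then `f ≥ 0` on `N`: let `e` be the functional (3).  Suppose `f < 0` somewhere on `N`; let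
`-μ < 0` be the minimum of `f x / e x` over `x ∈ N`; `f' = f + μ e ≥ 0` on `N`, zero on `K` and at `z`, and `f' x = 0` for some `x ∈ N` with `f x < 0`, so `x ∉ NR`.
So `x = s` or `Jn N K s x u` (with `x ≠ s`, `x ≠ u`); in both cases `f' s = 0` ((2) of `exists_eta`), so `f' u = 0` (`f' z = 0`, `η ≠ 0`), so
`f u = - μ e u < 0`, but `u ∈ NR`: contradiction.
`adj`: let `v, v' ∈ NR`, both `≠ u`, and `f` the functional of the edge in `(NR, K')`.  `f ≥ 0` on `N` by (A); if `f x = 0` with `x ∈ N`, `x ≠ v, v'`, then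
`x ∉ NR`, so again `f s = 0`, `f u = 0`, contradiction to `f u > 0` (`u ∈ NR`, `u ≠ v, v'`).  So `f` exposes the edge `v v'` of `N`.
`DimGe`: every `x ∈ N` is in `K' ⊔ span NR`: otherwise there is a functional which vanishes on `K'` and on `NR` and is negative at `x`,
contradiction to (A).  So if `NR ⊆ K' ⊔ span C` then `N ⊆ K ⊔ span (insert z C)`.
-/

set_option autoImplicit false

namespace Pool.Agent.LPG

variable {W : Type*} [AddCommGroup W] [Module ℝ W] {N : Finset W} {K : Submodule ℝ W}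

theorem mem_NR {s u w : W} : w ∈ NR N K s u ↔ w ∈ N ∧ w ≠ s ∧ (w = u ∨ ¬ Jn N K s w u) := by
  classical
  unfold NR
  rw [Finset.mem_filter]

/-- a nonnegative functional which vanishes outside `NR` vanishes at `s` and `u` -/
private theorem ZRed_B {s u : W} {η : ℝ} (hη : 0 < η)
    (P2 : ∀ w ∈ N, w ≠ s → Jn N K s w u → ∀ g : W →ₗ[ℝ] ℝ, (∀ z ∈ K, g z = 0) →
        (∀ v ∈ N, 0 ≤ g v) → g (s - η • u) = 0 → g w = 0 → g s = 0)
    (f : W →ₗ[ℝ] ℝ) (hK : ∀ z ∈ K, f z = 0) (hz : f (s - η • u) = 0) (hN : ∀ v ∈ N, 0 ≤ f v)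
    {x : W} (hx : x ∈ N) (hxR : x ∉ NR N K s u) (hfx : f x = 0) : f u = 0 := by
  have hs : f s = 0 := by
    by_cases hxs : x = s
    · rw [← hxs]; exact hfx
    · have hJ : Jn N K s x u := by
        by_contra hcon
        exact hxR (mem_NR.2 ⟨hx, hxs, Or.inr hcon⟩)
      exact P2 x hx hxs hJ f hK hN hz hfx
  rw [map_sub, map_smul, hs, zero_sub, smul_eq_mul, neg_eq_zero] at hz
  exact (mul_eq_zero.1 hz).resolve_left hη.ne'

private theorem ZRed_A {s u : W} {η : ℝ} (hη : 0 < η) (hu : u ∈ N) (hus : u ≠ s)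
    (P2 : ∀ w ∈ N, w ≠ s → Jn N K s w u → ∀ g : W →ₗ[ℝ] ℝ, (∀ z ∈ K, g z = 0) →
        (∀ v ∈ N, 0 ≤ g v) → g (s - η • u) = 0 → g w = 0 → g s = 0)
    (e : W →ₗ[ℝ] ℝ) (heK : ∀ z ∈ K, e z = 0) (hez : e (s - η • u) = 0) (he : ∀ v ∈ N, 0 < e v)
    (f : W →ₗ[ℝ] ℝ) (hK : ∀ z ∈ K, f z = 0) (hz : f (s - η • u) = 0)
    (hR : ∀ w ∈ NR N K s u, 0 ≤ f w) : ∀ x ∈ N, 0 ≤ f x := by
  intro x0 hx0
  by_contra hneg
  rw [not_le] at hneg
  obtain ⟨x, hx, hmin⟩ := Finset.exists_min_image N (fun y => f y / e y) ⟨x0, hx0⟩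
  set μ : ℝ := -(f x / e x) with hμ
  have hμ0 : 0 < μ := by
    have h1 := hmin x0 hx0
    have h2 : f x0 / e x0 < 0 := div_neg_of_neg_of_pos hneg (he x0 hx0)
    rw [hμ]
    linarith
  have hN' : ∀ y ∈ N, 0 ≤ (f + μ • e) y := by
    intro y hy
    have h1 := hmin y hy
    have h2 : -μ * e y ≤ f y := by
      have h3 : -μ ≤ f y / e y := by rw [hμ, neg_neg]; exact h1
      exact (le_div_iff₀ (he y hy)).1 h3
    simp only [LinearMap.add_apply, LinearMap.smul_apply, smul_eq_mul]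
    linarith
  have hfx : f x = -(μ * e x) := by
    rw [hμ]
    have := (he x hx).ne'
    field_simp
  have hfx' : (f + μ • e) x = 0 := by
    simp only [LinearMap.add_apply, LinearMap.smul_apply, smul_eq_mul]
    rw [hfx]; ring
  have hxR : x ∉ NR N K s u := by
    intro hxR
    have h1 := hR x hxR
    have h2 := mul_pos hμ0 (he x hx)
    linarith
  have hu0 := ZRed_B hη P2 (f + μ • e)
    (fun z hz' => by simp [hK z hz', heK z hz'])
    (by
      rw [LinearMap.add_apply, LinearMap.smul_apply, hz, hez, smul_zero, add_zero])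
    hN' hx hxR hfx'
  simp only [LinearMap.add_apply, LinearMap.smul_apply, smul_eq_mul] at hu0
  have h1 := hR u (mem_NR.2 ⟨hu, hus, Or.inl rfl⟩)
  have h2 := mul_pos hμ0 (he u hu)
  linarith

theorem red (h : Poly N K) {s u : W} (hu : u ∈ nb N K s) :
    ∃ η : ℝ, 0 < η ∧ Poly (NR N K s u) (ad K (s - η • u)) ∧
      (∀ n : ℕ, DimGe N K (n + 1) → DimGe (NR N K s u) (ad K (s - η • u)) n) ∧
      ∀ v v' : W, v ≠ u → v' ≠ u → Adj (NR N K s u) (ad K (s - η • u)) v v' → Adj N K v v' := by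
  classical
  obtain ⟨hs, hu, hsu, fe, hfK, hfs, hfu, hfe⟩ := mem_nb.1 hu
  have hus : u ≠ s := hsu.symm
  obtain ⟨η, hη, P1, P2, e, heK, hez, he⟩ := exists_eta h hs hu hus
  have huR : u ∈ NR N K s u := mem_NR.2 ⟨hu, hus, Or.inl rfl⟩
  have hA : ∀ f : W →ₗ[ℝ] ℝ, (∀ z ∈ ad K (s - η • u), f z = 0) →
      (∀ w ∈ NR N K s u, 0 ≤ f w) → ∀ x ∈ N, 0 ≤ f x := by
    intro f hf hR
    exact ZRed_A hη hu hus P2 e heK hez he f (fun z hz => hf z (le_ad _ _ hz))
      (hf _ (self_mem_ad _ _)) hR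
  refine ⟨η, hη, ⟨?_, ?_⟩, ?_, ?_⟩
  · intro w hw
    obtain ⟨hwN, hws, hwu⟩ := mem_NR.1 hw
    by_cases hwu' : w = u
    · subst hwu'
      refine ⟨fe, vanish_ad hfK ?_, hfu, ?_⟩
      · rw [map_sub, map_smul, hfs, hfu, smul_zero, sub_zero]
      · intro v hv hvw
        obtain ⟨hvN, hvs, _⟩ := mem_NR.1 hv
        exact hfe v hvN hvs hvw
    · have hJ : ¬ Jn N K s w u := hwu.resolve_left hwu'
      obtain ⟨g, hgK, hgz, hgw, hg⟩ := P1 w hwN hws hJ
      exact ⟨g, vanish_ad hgK hgz, hgw, fun v hv hvw => hg v (mem_NR.1 hv).1 hvw⟩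
  · exact ⟨e, vanish_ad heK hez, fun w hw => he w (mem_NR.1 hw).1⟩
  · intro n hn C hC
    by_contra hcon
    push Not at hcon
    have hall : ∀ x ∈ N, x ∈ ad K (s - η • u) ⊔ Submodule.span ℝ (C : Set W) := by
      intro x hx
      by_contra hxn
      obtain ⟨f, hf, hU⟩ := Submodule.exists_le_ker_of_notMem hxn
      have hU' : ∀ z ∈ ad K (s - η • u) ⊔ Submodule.span ℝ (C : Set W), f z = 0 :=
        fun z hz => LinearMap.mem_ker.1 (hU hz)
      have h1 := hA f (fun z hz => hU' z ((le_sup_left : ad K (s - η • u) ≤ _) hz))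
        (fun w hw => (hU' w (hcon w hw)).ge) x hx
      have h2 := hA (-f) (fun z hz => by
          rw [LinearMap.neg_apply, hU' z ((le_sup_left : ad K (s - η • u) ≤ _) hz), neg_zero])
        (fun w hw => by rw [LinearMap.neg_apply, hU' w (hcon w hw), neg_zero]) x hx
      rw [LinearMap.neg_apply] at h2
      exact hf (le_antisymm (by linarith) h1)
    have hcard : (insert (s - η • u) C).card < n + 1 := by
      have := Finset.card_insert_le (s - η • u) C
      omega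
    obtain ⟨v, hv, hvn⟩ := hn (insert (s - η • u) C) hcard
    apply hvn
    have hle : ad K (s - η • u) ⊔ Submodule.span ℝ (C : Set W) ≤
        K ⊔ Submodule.span ℝ ((insert (s - η • u) C : Finset W) : Set W) := by
      rw [Finset.coe_insert, Submodule.span_insert]
      unfold ad
      rw [sup_assoc]
    exact hle (hall v hv)
  · rintro v v' hvu hvu' ⟨hv, hv', hvv, f, hf, hfv, hfv', hpos⟩
    have hf0 := hA f hf (fun w hw => by
      by_cases h1 : w = v
      · rw [h1, hfv]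
      · by_cases h2 : w = v'
        · rw [h2, hfv']
        · exact (hpos w hw h1 h2).le)
    refine ⟨(mem_NR.1 hv).1, (mem_NR.1 hv').1, hvv, f, fun z hz => hf z (le_ad _ _ hz), hfv, hfv',
      ?_⟩
    intro w hw h1 h2
    refine lt_of_le_of_ne (hf0 w hw) fun h0 => ?_
    by_cases hwR : w ∈ NR N K s u
    · exact (hpos w hwR h1 h2).ne h0
    · have h3 := ZRed_B hη P2 f (fun z hz => hf z (le_ad _ _ hz)) (hf _ (self_mem_ad _ _))
        hf0 hw hwR h0.symm
      exact (hpos u huR hvu.symm hvu'.symm).ne' h3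

end Pool.Agent.LPG
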