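import Pool.Agent.LPZ.ZEta
import Pool.Agent.LPZ.ZMen

/-!
# The routing of the zero-cost step (module ZRoute)

State `DS U X S e`: the elements of `X` have been moved to the places `e x ∈ U` along connected disjoint sets `S x`, all vertices
used except the places are outside `U`, coloops of `insert s X` are moved to coloops of `insert s (e '' X)`.
`stage`: let `τ = e t`, `τ ∉ nb N K s`, `U` a zone, `KZ N K s τ ⊆ U`.  Apply `men` with `T = KZ N K s τ`, `X' = X.image e`, `B = X'.filter (· ∈ T)`, `Y = X'.filter (· ∉ T)`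
(`τ ∈ Y` since `Jn s τ τ`), `hN`: `v ∈ nb N K s`, `Jn N K s v τ` would give `τ = s` or `τ = v ∈ nb` (`jn_nb`).  `hτ`: `Cl K (insert s X') τ` gives a functional which vanishes on `K` and on
`insert s X' \ {τ}` and is positive at `τ` (`Submodule.exists_le_ker_of_notMem`).  `Y.card + B.card = X'.card = X.card` (the places are different by `disj`).
With the output `S1, e1` put `S' x = S x ∪ S1 (e x)`, `e' x = e1 (e x)` if `e x ∈ Y`, and `S' x = S x`, `e' x = e x` if `e x ∈ B`.  Disjointness: `S1 y ⊆ U` and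
`S x ∩ U ⊆ {e x}`.  Coloops: `indep1` for moved places, `indep2` for places in `B` (the span of the other places is contained in the span there).
New zone `KZ N K s τ` (`zone_KZ`), new `τ' = e' t` with `Jn N K s τ τ'` (`dec`), `¬ Jn N K s τ' τ`, so the face `s ∨ τ'` has fewer elements of `N` than `s ∨ τ`
(`jn_trans`, `τ` itself), and `KZ N K s τ' ⊆ KZ N K s τ`.
`last`: `u = e t ∈ nb N K s`.  Apply `men` with `T = KZ N K s u`, `B` = `u` and the places in `T`, `Y` = the other places (so `Jn N K s y u`, `y ≠ u`), `τ := s` (any point not in `Y`).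
`hN`: `v ∈ nb N K s`, `v ≠ u`: `¬ Jn N K s v u` by `jn_nb`.  Result: `ZGood`.
`zroute`: induction over the number of elements of `N` in the face `s ∨ e t`; start with `U = {v ∈ N, v ≠ s}` (`zone_all`), `S x = {x}`, `e = id`.
`KZ N K s (e t) ⊆ U` is kept: at the start clear.
-/

set_option autoImplicit false

namespace Pool.Agent.LPG

variable {W : Type*} [AddCommGroup W] [Module ℝ W] {N : Finset W} {K : Submodule ℝ W}

structure DS (N : Finset W) (K : Submodule ℝ W) (s : W) (U : Set W) (X : Finset W)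
    (S : W → Finset W) (e : W → W) : Prop where
  disj : ∀ x ∈ X, ∀ y ∈ X, x ≠ y → Disjoint (S x) (S y)
  mem : ∀ x ∈ X, x ∈ S x ∧ e x ∈ S x ∧ e x ∈ U
  sub : ∀ x ∈ X, ∀ v ∈ S x, v ∈ N ∧ v ≠ s
  conn : ∀ x ∈ X, ∀ v ∈ S x,
    Relation.ReflTransGen (fun p q => Adj N K p q ∧ p ∈ S x ∧ q ∈ S x) x v
  inner : ∀ x ∈ X, ∀ v ∈ S x, v ≠ e x → v ∉ U
  cl : ∀ x ∈ X, Cl K (insert s (X : Set W)) x → Cl K (insert s (e '' (X : Set W))) (e x)

/-- composition of the routing with the output of one stage -/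
private theorem zroute_comp {s : W} {U T : Set W} (hU : Zone N K s U) {X B Y : Finset W}
    {S : W → Finset W} {e : W → W} (hD : DS N K s U X S e) (hTU : T ⊆ U)
    (hB : ∀ v ∈ B, v ∈ U) (hBX : ∀ v ∈ B, ∃ x ∈ X, e x = v)
    (hXY : ∀ x ∈ X, e x ∉ B → e x ∈ Y) (hYX : ∀ y ∈ Y, y ∉ T ∧ ∃ x ∈ X, e x = y)
    {τ : W}
    {S1 : W → Finset W} {e1 : W → W} (hM : MenOut N K s U T B Y τ S1 e1) :
    ∃ (S' : W → Finset W) (e' : W → W),
      (∀ x ∈ X, ∀ y ∈ X, x ≠ y → Disjoint (S' x) (S' y)) ∧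
      (∀ x ∈ X, x ∈ S' x ∧ e' x ∈ S' x) ∧
      (∀ x ∈ X, ∀ v ∈ S' x, v ∈ N ∧ v ≠ s) ∧
      (∀ x ∈ X, ∀ v ∈ S' x,
        Relation.ReflTransGen (fun p q => Adj N K p q ∧ p ∈ S' x ∧ q ∈ S' x) x v) ∧
      (∀ x ∈ X, ∀ v ∈ S' x, v ≠ e' x → v ∉ T ∧ v ∉ B) ∧
      (∀ x ∈ X, Cl K (insert s (X : Set W)) x →
        Cl K (insert s (e' '' (X : Set W))) (e' x)) ∧
      (∀ x ∈ X, e x ∈ B → e' x = e x) ∧
      (∀ x ∈ X, e x ∉ B → e' x = e1 (e x)) := by
  classical
  obtain ⟨S', hS'B, hS'Y⟩ : ∃ S' : W → Finset W, (∀ x, e x ∈ B → S' x = S x) ∧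
      (∀ x, e x ∉ B → S' x = S x ∪ S1 (e x)) :=
    ⟨fun x => if e x ∈ B then S x else S x ∪ S1 (e x), fun x hx => if_pos hx,
      fun x hx => if_neg hx⟩
  obtain ⟨e', he'B, he'Y⟩ : ∃ e' : W → W, (∀ x, e x ∈ B → e' x = e x) ∧
      (∀ x, e x ∉ B → e' x = e1 (e x)) :=
    ⟨fun x => if e x ∈ B then e x else e1 (e x), fun x hx => if_pos hx,
      fun x hx => if_neg hx⟩
  have hne : ∀ x ∈ X, ∀ y ∈ X, x ≠ y → e x ≠ e y := by
    intro x hx y hy hxy hexy
    have h1 := (hD.mem x hx).2.1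
    have h2 := (hD.mem y hy).2.1
    rw [hexy] at h1
    exact Finset.disjoint_left.1 (hD.disj x hx y hy hxy) h1 h2
  -- old part against new part
  have hold : ∀ x ∈ X, ∀ y ∈ X, x ≠ y → e y ∉ B → ∀ v, v ∈ S x → v ∈ S1 (e y) → False := by
    intro x hx y hy hxy hyB v hv1 hv2
    have hyY := hXY y hy hyB
    obtain ⟨hvU, hvB, -⟩ := hM.sub (e y) hyY v hv2
    have hve : v = e x := by
      by_contra hne'
      exact hD.inner x hx v hv1 hne' hvU
    subst hve
    have hxY := hXY x hx hvB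
    have h3 := (hM.mem (e x) hxY).1
    exact Finset.disjoint_left.1 (hM.disj (e x) hxY (e y) hyY (hne x hx y hy hxy)) h3 hv2
  refine ⟨S', e', ?_, ?_, ?_, ?_, ?_, ?_, fun x _ => he'B x, fun x _ => he'Y x⟩
  · intro x hx y hy hxy
    rw [Finset.disjoint_left]
    intro v hv1 hv2
    by_cases hxB : e x ∈ B
    · rw [hS'B x hxB] at hv1
      by_cases hyB : e y ∈ B
      · rw [hS'B y hyB] at hv2
        exact Finset.disjoint_left.1 (hD.disj x hx y hy hxy) hv1 hv2
      · rw [hS'Y y hyB, Finset.mem_union] at hv2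
        rcases hv2 with hv2 | hv2
        · exact Finset.disjoint_left.1 (hD.disj x hx y hy hxy) hv1 hv2
        · exact hold x hx y hy hxy hyB v hv1 hv2
    · rw [hS'Y x hxB, Finset.mem_union] at hv1
      by_cases hyB : e y ∈ B
      · rw [hS'B y hyB] at hv2
        rcases hv1 with hv1 | hv1
        · exact Finset.disjoint_left.1 (hD.disj x hx y hy hxy) hv1 hv2
        · exact hold y hy x hx hxy.symm hxB v hv2 hv1
      · rw [hS'Y y hyB, Finset.mem_union] at hv2
        rcases hv1 with hv1 | hv1 <;> rcases hv2 with hv2 | hv2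
        · exact Finset.disjoint_left.1 (hD.disj x hx y hy hxy) hv1 hv2
        · exact hold x hx y hy hxy hyB v hv1 hv2
        · exact hold y hy x hx hxy.symm hxB v hv2 hv1
        · exact Finset.disjoint_left.1 (hM.disj (e x) (hXY x hx hxB) (e y) (hXY y hy hyB)
            (hne x hx y hy hxy)) hv1 hv2
  · intro x hx
    by_cases hxB : e x ∈ B
    · rw [hS'B x hxB, he'B x hxB]
      exact ⟨(hD.mem x hx).1, (hD.mem x hx).2.1⟩
    · rw [hS'Y x hxB, he'Y x hxB]
      exact ⟨Finset.mem_union_left _ (hD.mem x hx).1,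
        Finset.mem_union_right _ (hM.mem (e x) (hXY x hx hxB)).2.1⟩
  · intro x hx v hv
    by_cases hxB : e x ∈ B
    · rw [hS'B x hxB] at hv
      exact hD.sub x hx v hv
    · rw [hS'Y x hxB, Finset.mem_union] at hv
      rcases hv with hv | hv
      · exact hD.sub x hx v hv
      · exact hU.sub v (hM.sub (e x) (hXY x hx hxB) v hv).1
  · intro x hx v hv
    by_cases hxB : e x ∈ B
    · rw [hS'B x hxB] at hv ⊢
      exact hD.conn x hx v hv
    · rw [hS'Y x hxB] at hv ⊢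
      have hL : ∀ w, w ∈ S x → Relation.ReflTransGen
          (fun p q => Adj N K p q ∧ p ∈ S x ∪ S1 (e x) ∧ q ∈ S x ∪ S1 (e x)) x w := by
        intro w hw
        refine Relation.ReflTransGen.mono (fun p q hpq => ?_) _ _ (hD.conn x hx w hw)
        exact ⟨hpq.1, Finset.mem_union_left _ hpq.2.1, Finset.mem_union_left _ hpq.2.2⟩
      rw [Finset.mem_union] at hv
      rcases hv with hv | hv
      · exact hL v hv
      · refine (hL (e x) (hD.mem x hx).2.1).trans ?_
        refine Relation.ReflTransGen.mono (fun p q hpq => ?_) _ _ (hM.conn (e x) (hXY x hx hxB) v hv)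
        exact ⟨hpq.1, Finset.mem_union_right _ hpq.2.1, Finset.mem_union_right _ hpq.2.2⟩
  · intro x hx v hv hve
    by_cases hxB : e x ∈ B
    · rw [hS'B x hxB] at hv
      rw [he'B x hxB] at hve
      have h1 := hD.inner x hx v hv hve
      exact ⟨fun h2 => h1 (hTU h2), fun h2 => h1 (hB v h2)⟩
    · rw [hS'Y x hxB, Finset.mem_union] at hv
      rw [he'Y x hxB] at hve
      have hxY := hXY x hx hxB
      rcases hv with hv | hv
      · by_cases hv2 : v = e x
        · rw [hv2]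
          exact ⟨(hYX (e x) hxY).1, hxB⟩
        · have h1 := hD.inner x hx v hv hv2
          exact ⟨fun h2 => h1 (hTU h2), fun h2 => h1 (hB v h2)⟩
      · obtain ⟨-, h2, h3⟩ := hM.sub (e x) hxY v hv
        exact ⟨h3 hve, h2⟩
  · intro x hx hcl
    have hcl1 := hD.cl x hx hcl
    unfold Cl at hcl1 ⊢
    by_cases hxB : e x ∈ B
    · rw [he'B x hxB]
      have hes : e x ≠ s := (hU.sub (e x) (hB _ hxB)).2
      have h1 : e x ∉ K ⊔ Submodule.span ℝ (insert s ((B : Set W) \ {e x})) := by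
        intro hmem
        refine hcl1 (sup_le_sup_left (Submodule.span_mono ?_) K hmem)
        rintro w (rfl | ⟨hw1, hw2⟩)
        · exact ⟨Set.mem_insert _ _, fun h3 => hes h3.symm⟩
        · refine ⟨Set.mem_insert_of_mem _ ?_, hw2⟩
          obtain ⟨z, hz, hzw⟩ := hBX w hw1
          exact ⟨z, hz, hzw⟩
      intro hmem
      refine hM.indep2 (e x) hxB h1 (sup_le_sup_left (Submodule.span_mono ?_) K hmem)
      rintro w ⟨hw1, hw2⟩
      rcases hw1 with rfl | ⟨z, hz, hzw⟩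
      · exact Set.mem_insert _ _
      · refine Set.mem_insert_of_mem _ ?_
        by_cases hzB : e z ∈ B
        · left
          rw [he'B z hzB] at hzw
          refine ⟨?_, hw2⟩
          rw [← hzw]
          exact hzB
        · right
          rw [he'Y z hzB] at hzw
          exact ⟨e z, hXY z hz hzB, hzw⟩
    · rw [he'Y x hxB]
      have hxY := hXY x hx hxB
      intro hmem
      refine hM.indep1 (e x) hxY (sup_le_sup_left (Submodule.span_mono ?_) K hmem)
      rintro w ⟨hw1, hw2⟩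
      rcases hw1 with rfl | ⟨z, hz, hzw⟩
      · exact Set.mem_insert _ _
      · refine Set.mem_insert_of_mem _ ?_
        by_cases hzB : e z ∈ B
        · left
          rw [he'B z hzB] at hzw
          rw [← hzw]
          exact hzB
        · right
          rw [he'Y z hzB] at hzw
          refine ⟨e z, ⟨hXY z hz hzB, ?_⟩, hzw⟩
          intro h3
          apply hw2
          have h4 : e z = e x := h3
          rw [h4] at hzw
          exact hzw.symm

/-- the functional at a coloop -/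
private theorem zroute_fun {s τ : W} {O : Set W} (hsO : s ∈ O) (hsτ : s ≠ τ) (hcl : Cl K O τ) :
    ∃ f : W →ₗ[ℝ] ℝ, (∀ z ∈ K, f z = 0) ∧ f s = 0 ∧ (∀ v ∈ O, v ≠ τ → f v = 0) ∧ 0 < f τ := by
  unfold Cl at hcl
  obtain ⟨f, hf1, hf2⟩ := Submodule.exists_le_ker_of_notMem hcl
  have hf3 : ∀ z ∈ K, f z = 0 := fun z hz => by
    have := hf2 (Submodule.mem_sup_left hz)
    exact this
  have hf4 : ∀ v ∈ O, v ≠ τ → f v = 0 := fun v hv hvτ => by
    have := hf2 (Submodule.mem_sup_right (Submodule.subset_span ⟨hv, hvτ⟩))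
    exact this
  rcases lt_or_gt_of_ne hf1 with hneg | hpos
  · refine ⟨-f, fun z hz => ?_, ?_, fun v hv hvτ => ?_, ?_⟩
    · rw [LinearMap.neg_apply, hf3 z hz, neg_zero]
    · rw [LinearMap.neg_apply, hf4 s hsO hsτ, neg_zero]
    · rw [LinearMap.neg_apply, hf4 v hv hvτ, neg_zero]
    · rw [LinearMap.neg_apply]
      linarith
  · exact ⟨f, hf3, hf4 s hsO hsτ, hf4, hpos⟩

theorem stage (h : Poly N K) {s : W} (hs : s ∈ N) {n : ℕ} (hn : DimGe N K n) {U : Set W}
    (hU : Zone N K s U) {X : Finset W} (hc : X.card + 2 ≤ n) {t : W} (ht : t ∈ X)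
    (hcl : Cl K (insert s (X : Set W)) t) {S : W → Finset W} {e : W → W}
    (hD : DS N K s U X S e) (hsub : KZ N K s (e t) ⊆ U) (hnb : e t ∉ nb N K s) :
    ∃ (S' : W → Finset W) (e' : W → W), DS N K s (KZ N K s (e t)) X S' e' ∧
      Jn N K s (e t) (e' t) ∧ ¬ Jn N K s (e' t) (e t) := by
  classical
  have hτU : e t ∈ U := (hD.mem t ht).2.2
  have hτN := hU.sub (e t) hτU
  have hT : ∀ w, w ∈ KZ N K s (e t) ↔ w ∈ N ∧ w ≠ s ∧ ¬ Jn N K s w (e t) := fun w => Iff.rfl
  obtain ⟨B, hBm⟩ : ∃ B : Finset W, ∀ v, v ∈ B ↔ v ∈ X.image e ∧ v ∈ KZ N K s (e t) :=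
    ⟨(X.image e).filter (fun v => v ∈ KZ N K s (e t)), fun v => Finset.mem_filter⟩
  obtain ⟨Y, hYm⟩ : ∃ Y : Finset W, ∀ v, v ∈ Y ↔ v ∈ X.image e ∧ v ∉ KZ N K s (e t) :=
    ⟨(X.image e).filter (fun v => v ∉ KZ N K s (e t)), fun v => Finset.mem_filter⟩
  have himU : ∀ v ∈ X.image e, v ∈ U := by
    intro v hv
    obtain ⟨x, hx, rfl⟩ := Finset.mem_image.1 hv
    exact (hD.mem x hx).2.2
  have hYB : ∀ y ∈ Y, y ∉ B := fun y hy hyB => ((hYm y).1 hy).2 ((hBm y).1 hyB).2
  have hcard : Y.card + B.card ≤ X.card := by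
    have h1 : Disjoint Y B := Finset.disjoint_left.2 hYB
    rw [← Finset.card_union_of_disjoint h1]
    refine le_trans (Finset.card_le_card ?_) (Finset.card_image_le (s := X) (f := e))
    intro v hv
    rcases Finset.mem_union.1 hv with hv | hv
    · exact ((hYm v).1 hv).1
    · exact ((hBm v).1 hv).1
  have hcl1 := hD.cl t ht hcl
  have hτT : e t ∉ KZ N K s (e t) := fun h1 => h1.2.2 (jn_self s (e t))
  have hτY : e t ∈ Y := (hYm _).2 ⟨Finset.mem_image_of_mem e ht, hτT⟩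
  have hf : e t ∈ Y → ∃ f : W →ₗ[ℝ] ℝ, (∀ z ∈ K, f z = 0) ∧ f s = 0 ∧ (∀ v ∈ B, f v = 0) ∧
      (∀ v ∈ Y, v ≠ e t → f v = 0) ∧ 0 < f (e t) := by
    intro _
    obtain ⟨f, h1, h2, h3, h4⟩ := zroute_fun (Set.mem_insert s _) (fun h5 => hτN.2 h5.symm) hcl1
    refine ⟨f, h1, h2, fun v hv => ?_, fun v hv hvt => ?_, h4⟩
    · have h5 := (hBm v).1 hv
      refine h3 v (Set.mem_insert_of_mem _ ?_) ?_
      · obtain ⟨x, hx, hxv⟩ := Finset.mem_image.1 h5.1
        exact ⟨x, hx, hxv⟩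
      · rintro rfl
        exact hτT h5.2
    · have h5 := (hYm v).1 hv
      refine h3 v (Set.mem_insert_of_mem _ ?_) hvt
      obtain ⟨x, hx, hxv⟩ := Finset.mem_image.1 h5.1
      exact ⟨x, hx, hxv⟩
  obtain ⟨S1, e1, hM⟩ := men h hs hn (U := U) (T := KZ N K s (e t)) (B := B) (Y := Y)
    (τ := e t) hU hsub
    (by
      intro v hvU hvnb
      left
      refine ⟨(hU.sub v hvU).1, (hU.sub v hvU).2, fun hJ => ?_⟩
      rcases jn_nb hvnb hτN.1 hJ with h1 | h1
      · exact hτN.2 h1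
      · rw [h1] at hnb
        exact hnb hvnb)
    (fun v hv => hsub ((hBm v).1 hv).2)
    (fun y hy => ⟨himU y ((hYm y).1 hy).1, ((hYm y).1 hy).2, hYB y hy⟩)
    (by omega) hf
  obtain ⟨S', e', c1, c2, c3, c4, c5, c6, c7, c8⟩ := zroute_comp hU hD hsub
    (fun v hv => hsub ((hBm v).1 hv).2)
    (fun v hv => by
      obtain ⟨x, hx, hxv⟩ := Finset.mem_image.1 ((hBm v).1 hv).1
      exact ⟨x, hx, hxv⟩)
    (fun x hx hxB => (hYm _).2 ⟨Finset.mem_image_of_mem e hx,
      fun h1 => hxB ((hBm _).2 ⟨Finset.mem_image_of_mem e hx, h1⟩)⟩)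
    (fun y hy => ⟨((hYm y).1 hy).2, by
      obtain ⟨x, hx, hxv⟩ := Finset.mem_image.1 ((hYm y).1 hy).1
      exact ⟨x, hx, hxv⟩⟩)
    hM
  have hτB : e t ∉ B := hYB _ hτY
  have hmemT : ∀ x ∈ X, e' x ∈ KZ N K s (e t) := by
    intro x hx
    by_cases hxB : e x ∈ B
    · rw [c7 x hx hxB]
      exact ((hBm _).1 hxB).2
    · rw [c8 x hx hxB]
      have hxY : e x ∈ Y := (hYm _).2 ⟨Finset.mem_image_of_mem e hx,
        fun h1 => hxB ((hBm _).2 ⟨Finset.mem_image_of_mem e hx, h1⟩)⟩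
      exact (hM.mem (e x) hxY).2.2.1
  refine ⟨S', e', ⟨c1, fun x hx => ⟨(c2 x hx).1, (c2 x hx).2, hmemT x hx⟩, c3, c4,
    fun x hx v hv hve => (c5 x hx v hv hve).1, c6⟩, ?_, ?_⟩
  · rw [c8 t ht hτB]
    exact hM.dec hτY (e1 (e t)) (hM.mem (e t) hτY).2.1
  · exact (hmemT t ht).2.2

private theorem zroute_last (h : Poly N K) {s : W} (hs : s ∈ N) {n : ℕ} (hn : DimGe N K n)
    {U : Set W}
    (hU : Zone N K s U) {X : Finset W} (hc : X.card + 2 ≤ n) {t : W} (ht : t ∈ X)
    {S : W → Finset W} {e : W → W}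
    (hD : DS N K s U X S e) (hsub : KZ N K s (e t) ⊆ U) (hnb : e t ∈ nb N K s) :
    ∃ (S' : W → Finset W) (e' : W → W), ZGood N K s X t (e t) S' e' := by
  classical
  have hτU : e t ∈ U := (hD.mem t ht).2.2
  have hτN := hU.sub (e t) hτU
  obtain ⟨B, hBm⟩ : ∃ B : Finset W, ∀ v, v ∈ B ↔
      v ∈ X.image e ∧ (v ∈ KZ N K s (e t) ∨ v = e t) :=
    ⟨(X.image e).filter (fun v => v ∈ KZ N K s (e t) ∨ v = e t), fun v => Finset.mem_filter⟩
  obtain ⟨Y, hYm⟩ : ∃ Y : Finset W, ∀ v, v ∈ Y ↔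
      v ∈ X.image e ∧ ¬ (v ∈ KZ N K s (e t) ∨ v = e t) :=
    ⟨(X.image e).filter (fun v => ¬ (v ∈ KZ N K s (e t) ∨ v = e t)), fun v => Finset.mem_filter⟩
  have himU : ∀ v ∈ X.image e, v ∈ U := by
    intro v hv
    obtain ⟨x, hx, rfl⟩ := Finset.mem_image.1 hv
    exact (hD.mem x hx).2.2
  have hYB : ∀ y ∈ Y, y ∉ B := fun y hy hyB => ((hYm y).1 hy).2 ((hBm y).1 hyB).2
  have hcard : Y.card + B.card ≤ X.card := by
    have h1 : Disjoint Y B := Finset.disjoint_left.2 hYB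
    rw [← Finset.card_union_of_disjoint h1]
    refine le_trans (Finset.card_le_card ?_) (Finset.card_image_le (s := X) (f := e))
    intro v hv
    rcases Finset.mem_union.1 hv with hv | hv
    · exact ((hYm v).1 hv).1
    · exact ((hBm v).1 hv).1
  have hτB : e t ∈ B := (hBm _).2 ⟨Finset.mem_image_of_mem e ht, Or.inr rfl⟩
  obtain ⟨S1, e1, hM⟩ := men h hs hn (U := U) (T := KZ N K s (e t)) (B := B) (Y := Y)
    (τ := s) hU hsub
    (by
      intro v hvU hvnb
      by_cases hvu : v = e t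
      · right
        rw [hvu]
        exact hτB
      · left
        refine ⟨(hU.sub v hvU).1, (hU.sub v hvU).2, fun hJ => ?_⟩
        rcases jn_nb hvnb hτN.1 hJ with h1 | h1
        · exact hτN.2 h1
        · exact hvu h1.symm)
    (fun v hv => himU v ((hBm v).1 hv).1)
    (fun y hy => ⟨himU y ((hYm y).1 hy).1, fun h1 => ((hYm y).1 hy).2 (Or.inl h1), hYB y hy⟩)
    (by omega)
    (fun hsY => absurd rfl (hU.sub s (himU s ((hYm s).1 hsY).1)).2)
  obtain ⟨S', e', c1, c2, c3, c4, c5, c6, c7, c8⟩ := zroute_comp hU hD hsub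
    (fun v hv => himU v ((hBm v).1 hv).1)
    (fun v hv => by
      obtain ⟨x, hx, hxv⟩ := Finset.mem_image.1 ((hBm v).1 hv).1
      exact ⟨x, hx, hxv⟩)
    (fun x hx hxB => (hYm _).2 ⟨Finset.mem_image_of_mem e hx,
      fun h1 => hxB ((hBm _).2 ⟨Finset.mem_image_of_mem e hx, h1⟩)⟩)
    (fun y hy => ⟨fun h1 => ((hYm y).1 hy).2 (Or.inl h1), by
      obtain ⟨x, hx, hxv⟩ := Finset.mem_image.1 ((hYm y).1 hy).1
      exact ⟨x, hx, hxv⟩⟩)
    hM
  refine ⟨S', e', mem_nb.1 hnb, c7 t ht hτB, c1, c2, c3, c4, ?_, ?_, c6⟩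
  · intro x hx v hv hve
    obtain ⟨h1, h2⟩ := c5 x hx v hv hve
    refine ⟨?_, ?_⟩
    · rintro rfl
      exact h2 hτB
    · by_contra hJ
      exact h1 ⟨(c3 x hx v hv).1, (c3 x hx v hv).2, hJ⟩
  · intro x hx hxt
    by_cases hxB : e x ∈ B
    · rw [c7 x hx hxB]
      have hne : e x ≠ e t := by
        intro hexy
        have h1 := (hD.mem x hx).2.1
        have h2 := (hD.mem t ht).2.1
        rw [hexy] at h1
        exact Finset.disjoint_left.1 (hD.disj x hx t ht hxt) h1 h2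
      rcases ((hBm _).1 hxB).2 with h1 | h1
      · exact ⟨hne, h1.2.2⟩
      · exact absurd h1 hne
    · rw [c8 x hx hxB]
      have hxY : e x ∈ Y := (hYm _).2 ⟨Finset.mem_image_of_mem e hx,
        fun h1 => hxB ((hBm _).2 ⟨Finset.mem_image_of_mem e hx, h1⟩)⟩
      obtain ⟨-, -, h3, h4⟩ := hM.mem (e x) hxY
      refine ⟨?_, h3.2.2⟩
      intro h5
      rw [h5] at h4
      exact h4 hτB

theorem last (h : Poly N K) {s : W} (hs : s ∈ N) {n : ℕ} (hn : DimGe N K n) {U : Set W}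
    (hU : Zone N K s U) {X : Finset W} (hc : X.card + 2 ≤ n) {t : W} (ht : t ∈ X)
    {S : W → Finset W} {e : W → W}
    (hD : DS N K s U X S e) (hsub : KZ N K s (e t) ⊆ U) (hnb : e t ∈ nb N K s)
    (hUu : ∀ v, v ∈ N → v ≠ s → v ∉ U → v ≠ e t ∧ Jn N K s v (e t)) :
    ∃ (S' : W → Finset W) (e' : W → W), ZGood N K s X t (e t) S' e' := by
  have _ := hUu
  exact zroute_last h hs hn hU hc ht hD hsub hnb

theorem zroute (h : Poly N K) {s : W} (hs : s ∈ N) {n : ℕ} (hn : DimGe N K n)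
    {X : Finset W} (hX : X ⊆ N) (hsX : s ∉ X) (hc : X.card + 2 ≤ n) {t : W} (ht : t ∈ X)
    (hcl : Cl K (insert s (X : Set W)) t) :
    ∃ (u : W) (S : W → Finset W) (e : W → W), ZGood N K s X t u S e := by
  classical
  have key : ∀ m : ℕ, ∀ (U : Set W) (S : W → Finset W) (e : W → W), Zone N K s U →
      DS N K s U X S e → KZ N K s (e t) ⊆ U →
      (N.filter (fun v => Jn N K s (e t) v)).card = m →
      ∃ (u : W) (S' : W → Finset W) (e' : W → W), ZGood N K s X t u S' e' := by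
    intro m
    induction m using Nat.strong_induction_on with
    | _ m ih =>
      intro U S e hU hD hsub hm
      by_cases hnb : e t ∈ nb N K s
      · obtain ⟨S', e', hG⟩ := zroute_last h hs hn hU hc ht hD hsub hnb
        exact ⟨e t, S', e', hG⟩
      · obtain ⟨S', e', hD', hJ1, hJ2⟩ := stage h hs hn hU hc ht hcl hD hsub hnb
        have hτU : e t ∈ U := (hD.mem t ht).2.2
        have hτN := hU.sub (e t) hτU
        refine ih _ ?_ (KZ N K s (e t)) S' e' (zone_KZ h hs hτN.1 hτN.2) hD' ?_ rfl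
        · rw [← hm]
          apply Finset.card_lt_card
          rw [Finset.ssubset_iff_of_subset]
          · refine ⟨e t, ?_, ?_⟩
            · rw [Finset.mem_filter]
              exact ⟨hτN.1, jn_self s (e t)⟩
            · rw [Finset.mem_filter]
              exact fun h1 => hJ2 h1.2
          · intro v hv
            rw [Finset.mem_filter] at hv ⊢
            exact ⟨hv.1, jn_trans hJ1 hv.2⟩
        · intro w hw
          exact ⟨hw.1, hw.2.1, fun h1 => hw.2.2 (jn_trans h1 hJ1)⟩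
  refine key _ {v | v ∈ N ∧ v ≠ s} (fun x => {x}) id (zone_all h) ?_ ?_ rfl
  · refine ⟨?_, ?_, ?_, ?_, ?_, ?_⟩
    · intro x _ y _ hxy
      exact Finset.disjoint_singleton.2 hxy
    · intro x hx
      refine ⟨Finset.mem_singleton_self x, Finset.mem_singleton_self x, hX hx, ?_⟩
      rintro rfl
      exact hsX hx
    · intro x hx v hv
      rw [Finset.mem_singleton] at hv
      subst hv
      refine ⟨hX hx, ?_⟩
      rintro rfl
      exact hsX hx
    · intro x hx v hv
      rw [Finset.mem_singleton] at hv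
      subst hv
      exact Relation.ReflTransGen.refl
    · intro x hx v hv hve
      rw [Finset.mem_singleton] at hv
      exact absurd hv hve
    · intro x hx hx2
      have h1 : (id '' (X : Set W)) = (X : Set W) := Set.image_id _
      rw [h1]
      exact hx2
  · intro w hw
    exact ⟨hw.1, hw.2.1⟩

end Pool.Agent.LPG
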